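import Pool.Agent.W_7742y_h74.Mean
import Pool.Agent.W_7742y_h74.Mark
import Pool.Agent.W_7742y_h74.Imp

/-! # Energy

`q` is a nonnegative class function on `G / U` with `q (frob p) ≤ ∑_σ ‖σ (b p)‖ ^ 2` for `p ∉ Z`, `Z` of
density zero.  Then `∑ q ≤ d |G / U|`.

Proof.  `q` is bounded by some `B`.  For `s` near `1`:
`∑_p q (frob p) p ^ (-s) ≤ ∑_σ ∑_p ‖σ (b p)‖ ^ 2 p ^ (-s) + B primeSum Z s ≤
(d (1 + ε) + B ε) log (1 / (s - 1))`
(`hRS`, `LogBound`; `HasDensity Z 0`).  Divide by the logarithm and let `s → 1`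
(`OneP74.tendsto_mean`, `OneP74.summable_frob` in `W_7742y_h74/Mean.lean`):
`(∑ q) / |G / U| ≤ d (1 + ε) + B ε` for all `ε > 0`. -/

set_option autoImplicit false

noncomputable section

open Filter Topology NumberField

namespace Pool.Agent.OneJ74

open Pool.Agent.GalSide Pool.Agent.OneP74

variable {G : Type} [Group G] [TopologicalSpace G] [IsTopologicalGroup G] [CompactSpace G]

theorem energy (Φ : FrobeniusData G) {K : Type} [Field K] [NumberField K]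
    (b : Nat.Primes → 𝓞 K)
    (hRS : ∀ σ : K →+* ℂ, ∀ ε : ℝ, 0 < ε → LogBound (1 + ε) (fun p => ‖σ (b p : K)‖ ^ 2))
    (U : Subgroup G) [U.Normal] (hU : IsOpen (U : Set G)) [Fintype (G ⧸ U)] (q : G ⧸ U → ℝ)
    (hq0 : ∀ x, 0 ≤ q x) (hqc : ∀ x y, q (x * y) = q (y * x)) {Z : Set Nat.Primes}
    (hZ : HasDensity Z 0)
    (h : ∀ p ∉ Z, q (QuotientGroup.mk (Φ.frob p)) ≤ ∑ σ : K →+* ℂ, ‖σ (b p : K)‖ ^ 2) :
    ∑ x, q x ≤ Module.finrank ℚ K * Fintype.card (G ⧸ U) := by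
  classical
  have hG0 : (0 : ℝ) < Fintype.card (G ⧸ U) := by
    exact_mod_cast Fintype.card_pos
  have hcl : ∀ x y : G ⧸ U, IsConj x y → q x = q y := by
    intro x y hxy
    obtain ⟨c, hc⟩ := isConj_iff.1 hxy
    rw [← hc, hqc (c * x) c⁻¹, ← mul_assoc, inv_mul_cancel, one_mul]
  have hmean := tendsto_mean Φ U hU q hcl
  obtain ⟨B, hB⟩ : ∃ B : ℝ, B = ∑ x, q x := ⟨_, rfl⟩
  have hB0 : 0 ≤ B := by
    rw [hB]
    exact Finset.sum_nonneg fun x _ => hq0 x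
  have hqB : ∀ x, q x ≤ B := fun x => by
    rw [hB]
    exact Finset.single_le_sum (fun y _ => hq0 y) (Finset.mem_univ x)
  obtain ⟨d, hd⟩ : ∃ d : ℝ, d = (Module.finrank ℚ K : ℝ) := ⟨_, rfl⟩
  have hcard : (Fintype.card (K →+* ℂ) : ℝ) = d := by
    rw [hd, NumberField.Embeddings.card K ℂ]
  have hd0 : 0 ≤ d := by
    rw [hd]
    positivity
  have h1 : (∑ x, q x) / (Fintype.card (G ⧸ U) : ℝ) ≤ d := by
    refine le_of_forall_pos_le_add fun δ hδ => ?_
    obtain ⟨ε, hε, hεδ⟩ : ∃ ε : ℝ, 0 < ε ∧ d * ε ≤ δ := by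
      refine ⟨δ / (d + 1), by positivity, ?_⟩
      rw [mul_div_assoc', div_le_iff₀ (by positivity)]
      nlinarith
    have h2 : Tendsto (fun s : ℝ => (d + δ) + B * (primeSum Z s / Real.log (1 / (s - 1))))
        (𝓝[>] 1) (𝓝 ((d + δ) + B * 0)) := (hZ.const_mul _).const_add _
    rw [mul_zero, add_zero] at h2
    refine le_of_tendsto_of_tendsto hmean h2 ?_
    have hall : ∀ᶠ s : ℝ in 𝓝[>] 1, ∀ σ : K →+* ℂ,
        Summable (fun p : Nat.Primes => ‖σ (b p : K)‖ ^ 2 * ((p : ℕ) : ℝ) ^ (-s)) ∧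
          ∑' p : Nat.Primes, ‖σ (b p : K)‖ ^ 2 * ((p : ℕ) : ℝ) ^ (-s) ≤
            (1 + ε) * Real.log (1 / (s - 1)) :=
      eventually_all.2 fun σ => hRS σ ε hε
    filter_upwards [hall, Chb_gt, Chb_log.eventually_gt_atTop 0] with s h3 hs hL
    rw [div_le_iff₀ hL]
    have hsq := summable_frob Φ U q hs
    have h4 := hasSum_sum (s := Finset.univ) fun (σ : K →+* ℂ) _ => (h3 σ).1.hasSum
    have h5 := (Chb_summable hs Z).hasSum.mul_left B
    have h6 : ∑' p : Nat.Primes, q (QuotientGroup.mk (Φ.frob p)) * ((p : ℕ) : ℝ) ^ (-s) ≤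
        ∑ σ : K →+* ℂ, ∑' p : Nat.Primes, ‖σ (b p : K)‖ ^ 2 * ((p : ℕ) : ℝ) ^ (-s) +
          B * primeSum Z s := by
      refine hasSum_le (fun p => ?_) hsq.hasSum (h4.add h5)
      have hw : 0 ≤ ((p : ℕ) : ℝ) ^ (-s) := Real.rpow_nonneg (Nat.cast_nonneg _) _
      have hnn : 0 ≤ ∑ σ : K →+* ℂ, ‖σ (b p : K)‖ ^ 2 * ((p : ℕ) : ℝ) ^ (-s) :=
        Finset.sum_nonneg fun σ _ => mul_nonneg (sq_nonneg _) hw
      by_cases hp : p ∈ Z
      · rw [Set.indicator_of_mem hp]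
        have h7 := mul_le_mul_of_nonneg_right
          (hqB (QuotientGroup.mk (Φ.frob p))) hw
        linarith
      · rw [Set.indicator_of_notMem hp, mul_zero, add_zero, ← Finset.sum_mul]
        exact mul_le_mul_of_nonneg_right (h p hp) hw
    have h7 : ∑ σ : K →+* ℂ, ∑' p : Nat.Primes, ‖σ (b p : K)‖ ^ 2 * ((p : ℕ) : ℝ) ^ (-s) ≤
        d * ((1 + ε) * Real.log (1 / (s - 1))) := by
      refine (Finset.sum_le_sum fun σ _ => (h3 σ).2).trans ?_
      rw [Finset.sum_const, Finset.card_univ, nsmul_eq_mul, hcard]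
    have h8 : d * ((1 + ε) * Real.log (1 / (s - 1))) ≤ (d + δ) * Real.log (1 / (s - 1)) := by
      have h9 : d * ((1 + ε) * Real.log (1 / (s - 1))) =
          (d + d * ε) * Real.log (1 / (s - 1)) := by ring
      rw [h9]
      exact mul_le_mul_of_nonneg_right (by linarith) hL.le
    have e1 : (d + δ + B * (primeSum Z s / Real.log (1 / (s - 1)))) * Real.log (1 / (s - 1)) =
        (d + δ) * Real.log (1 / (s - 1)) + B * primeSum Z s := by
      field_simp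
    rw [e1]
    linarith
  rw [div_le_iff₀ hG0, hd] at h1
  exact h1

end Pool.Agent.OneJ74
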