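import Pool.Agent.W_7742j_h74.JFin
import Pool.Agent.W_7742j_h74.JEng
import Pool.Agent.W_7742z_h74.Frb
import Pool.Agent.W_7742y_h74.Imp
import Pool.Agent.W_7742y_h74.MeanGe

/-! # The main theorem

Let `U = r.ker` (open normal), `Γ = G / U`, finite, `ρ : Γ → M_n(A)` the induced homomorphism
(`QuotientGroup.lift`).  Every value of the trace is in the image of `ι` (`OneI74.exists_frob`, as in
`W_7742z_h74/MainA.lean`).  `exists_lift` gives `f`.  `energy` for `q x = Q (f x)`: for `p ∉ Z`,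
`ι (b p) = tr ρ (mk (frob p))`, so `Q (f (mk (frob p))) ≤ Q (b p)`.  So `Set1`, and `finite_main` gives
`𝔟`, `β`.  Copy the rest from the proof of `OneI74.main` (`W_7742z_h74/Main.lean`), with `3 * n ≤ ZZ n`
(`ine_6`) for the constant `3 n` in `OneI74.sum_sq_ge`.  Last claim: the minor of `finite_main`. -/

set_option autoImplicit false

noncomputable section

open Filter Topology NumberField

namespace Pool.Agent.OneJ74

open Pool.Agent.GalSide Pool.Agent.OneI74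

variable {G : Type} [Group G] [TopologicalSpace G] [IsTopologicalGroup G] [CompactSpace G]

theorem main3 (Φ : FrobeniusData G) {K : Type} [Field K] [NumberField K]
    (b : Nat.Primes → 𝓞 K)
    (hRS : ∀ σ : K →+* ℂ, ∀ ε : ℝ, 0 < ε → LogBound (1 + ε) (fun p => ‖σ (b p : K)‖ ^ 2))
    {A : Type} [CommRing A] (ι : 𝓞 K →+* A) {n : ℕ} (hn : 0 < n)
    (hN : YY n ^ Module.finrank ℚ K ≤ Ideal.absNorm (RingHom.ker ι))
    (r : G →* Matrix (Fin n) (Fin n) A) (hr : IsOpen ({g | r g = 1} : Set G))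
    (hZ : HasDensity {p | (r (Φ.frob p)).trace ≠ ι (b p)} 0) :
    ∃ (𝔟 : Ideal (𝓞 K)) (U : Subgroup G) (_ : U.Normal) (β : G ⧸ U → 𝓞 K),
      RingHom.ker ι ≤ 𝔟 ∧
      Ideal.absNorm (RingHom.ker ι) ≤
        (n ^ (2 * n ^ 2)) ^ Module.finrank ℚ K * Ideal.absNorm 𝔟 ∧
      ZZ n ^ Module.finrank ℚ K ≤ Ideal.absNorm 𝔟 ∧
      IsOpen (U : Set G) ∧ (∀ g, r g = 1 → g ∈ U) ∧
      (∀ g, ∃ c, ι c = (r g).trace) ∧
      (∀ g c, ι c = (r g).trace → c - β (QuotientGroup.mk g) ∈ 𝔟) ∧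
      HasDensity {p | b p ≠ β (QuotientGroup.mk (Φ.frob p))} 0 ∧
      (∀ s : K →+* ℂ, ∃ R : G ⧸ U →* Matrix (Fin n) (Fin n) ℂ,
        (∀ x, (R x).trace = s (β x : K)) ∧
        ∀ W : Submodule ℂ (Fin n → ℂ), (∀ g, ∀ w ∈ W, (R g).mulVec w ∈ W) → W = ⊥ ∨ W = ⊤) ∧
      ¬ ∀ g h : Fin (n ^ 2) → G, (Matrix.of fun i j => (r (g i * h j)).trace).det = 0 := by
  classical
  have hd : 0 < Module.finrank ℚ K := Module.finrank_pos
  have hU₀ : IsOpen ((r.ker : Subgroup G) : Set G) := hr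
  have hfin : Finite (G ⧸ r.ker) := Subgroup.quotient_finite_of_isOpen r.ker hU₀
  let _ : Fintype (G ⧸ r.ker) := Fintype.ofFinite _
  obtain ⟨ρ, hρ⟩ : ∃ ρ : G ⧸ r.ker →* Matrix (Fin n) (Fin n) A,
      ∀ g : G, ρ (QuotientGroup.mk g) = r g :=
    ⟨QuotientGroup.lift r.ker r le_rfl, fun g => rfl⟩
  have hTc : ∀ x y, (ρ (x * y)).trace = (ρ (y * x)).trace := by
    intro x y
    rw [map_mul, map_mul, Matrix.trace_mul_comm]
  have hTf : ∀ p ∉ {p | (r (Φ.frob p)).trace ≠ ι (b p)},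
      (ρ (QuotientGroup.mk (Φ.frob p))).trace = ι (b p) := by
    intro p hp
    rw [hρ]
    by_contra h
    exact hp h
  have hTconj : ∀ x y, IsConj x y → (ρ x).trace = (ρ y).trace := by
    intro x y h
    obtain ⟨c, hc⟩ := isConj_iff.1 h
    rw [← hc, mul_assoc, hTc, mul_assoc, inv_mul_cancel, mul_one]
  have hl : ∀ x, ∃ c, ι c = (ρ x).trace := by
    intro x
    obtain ⟨g, rfl⟩ := QuotientGroup.mk_surjective x
    obtain ⟨p, hp, hc⟩ := exists_frob Φ r.ker hU₀ g hZ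
    exact ⟨b p, by rw [← hTconj _ _ hc, hTf p hp]⟩
  obtain ⟨f, hf, hfmin, hfc⟩ := exists_lift ι ρ hl
  have hen := energy Φ b hRS r.ker hU₀ (fun x => Q (f x : K))
    (fun x => Finset.sum_nonneg fun _ _ => by positivity)
    (fun x y => by simp only [hfc x y]) hZ
    (fun p hp => hfmin _ _ (hTf p hp).symm)
  have H : Set1 ι ρ f := ⟨hn, hN, hf, hfmin, hfc, hen⟩
  obtain ⟨𝔟, β, h𝔟, hNN, hN𝔟, hc₀, hcomm, hrep, k, x, hkx⟩ := H.finite_main
  have hc : ∀ g c, ι c = (r g).trace → c - β (QuotientGroup.mk g) ∈ 𝔟 := by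
    intro g c hgc
    exact hc₀ _ _ (by rw [hρ]; exact hgc)
  choose R hR using hrep
  have hnorm : ∀ (s : K →+* ℂ) (x : G ⧸ r.ker), ‖s (β x : K)‖ ≤ n := by
    intro s x
    have hm : 0 < Fintype.card (G ⧸ r.ker) := Fintype.card_pos
    have hpow : (R s x) ^ Fintype.card (G ⧸ r.ker) = 1 := by
      rw [← map_pow, pow_card_eq_one, map_one]
    obtain ⟨a, ha⟩ := Pool.Agent.OneP74.exists_exponents hm (R s x) hpow _
      (Complex.isPrimitiveRoot_exp _ hm.ne')
    have h1 := ha 1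
    rw [pow_one, hR] at h1
    rw [h1]
    refine (norm_sum_le _ _).trans ?_
    have h2 : ∀ i ∈ (Finset.univ : Finset (Fin n)),
        ‖Complex.exp (2 * Real.pi * Complex.I / (Fintype.card (G ⧸ r.ker) : ℕ)) ^ (1 * a i)‖ ≤
          1 := by
      intro i _
      rw [norm_pow, (Complex.isPrimitiveRoot_exp _ hm.ne').norm'_eq_one hm.ne', one_pow]
    refine (Finset.sum_le_sum h2).trans ?_
    rw [Finset.sum_const, Finset.card_univ, Fintype.card_fin, nsmul_eq_mul, mul_one]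
  set Z : Set Nat.Primes := {p | (r (Φ.frob p)).trace ≠ ι (b p)} with hZdef
  set E : Set Nat.Primes := {p | p ∉ Z ∧ b p - β (QuotientGroup.mk (Φ.frob p)) ≠ 0} with hEdef
  have hn1 : (1 : ℝ) ≤ n := by exact_mod_cast hn
  have h3n : ((3 * n : ℕ) : ℝ) ^ Module.finrank ℚ K ≤ (Ideal.absNorm 𝔟 : ℝ) := by
    exact_mod_cast (Nat.pow_le_pow_left (ine_6 hn).1 _).trans hN𝔟
  have hE : ∀ p ∈ E, (Fintype.card (K →+* ℂ) : ℝ) * (4 * (n : ℝ) ^ 2 + 1) ≤
      ∑ τ : K →+* ℂ, ‖τ (b p : K) - τ (β (QuotientGroup.mk (Φ.frob p)) : K)‖ ^ 2 := by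
    intro p hpE
    have hmem : b p - β (QuotientGroup.mk (Φ.frob p)) ∈ 𝔟 := by
      refine hc _ _ ?_
      exact (not_not.1 hpE.1).symm
    have h4 := sum_sq_ge 𝔟 hmem hpE.2 (Nat.cast_nonneg (3 * n)) h3n
    rw [NumberField.Embeddings.card]
    have h5 : (Module.finrank ℚ K : ℝ) * (4 * (n : ℝ) ^ 2 + 1) ≤
        (Module.finrank ℚ K : ℝ) * ((3 * n : ℕ) : ℝ) ^ 2 := by
      refine mul_le_mul_of_nonneg_left ?_ (Nat.cast_nonneg _)
      push_cast
      nlinarith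
    refine h5.trans (h4.trans_eq ?_)
    refine Finset.sum_congr rfl fun τ _ => ?_
    rw [← map_sub]
    rfl
  have himp := Pool.Agent.OneP74.improve Φ r.ker hU₀ (ι := K →+* ℂ) (n := n)
    (fun τ x => τ (β x : K))
    (fun τ x y hxy => by
      obtain ⟨c, hcxy⟩ := isConj_iff.1 hxy
      have h1 : β y = β x := by
        rw [← hcxy, hcomm, ← mul_assoc, inv_mul_cancel, one_mul]
      rw [h1])
    (fun τ x => hnorm τ x)
    (fun τ => by
      have h1 := Pool.Agent.OneP74.card_le_sum hn (R τ)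
      simp only [hR] at h1
      exact h1)
    (fun τ p => τ (b p : K)) (fun τ ε hε => hRS τ ε hε) Z E hZ hE
    (by
      intro p hpZ hpE τ
      have h1 : b p - β (QuotientGroup.mk (Φ.frob p)) = 0 := by
        by_contra h
        exact hpE ⟨hpZ, h⟩
      rw [sub_eq_zero] at h1
      simp only [h1])
  obtain ⟨hEd, hms⟩ := himp
  have hirr : ∀ s : K →+* ℂ, ∀ W : Submodule ℂ (Fin n → ℂ),
      (∀ g, ∀ w ∈ W, (R s g).mulVec w ∈ W) → W = ⊥ ∨ W = ⊤ := by
    intro s W hW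
    refine eq_bot_or_eq_top (R s) ?_ W hW
    have h1 := hms s
    simp only [← hR] at h1
    exact h1
  refine ⟨𝔟, r.ker, inferInstance, β, h𝔟, hNN, hN𝔟, hU₀, fun g hg => hg, ?_, hc, ?_,
    fun s => ⟨R s, hR s, hirr s⟩, ?_⟩
  · intro g
    obtain ⟨c, hc⟩ := hl (QuotientGroup.mk g)
    exact ⟨c, by rw [hc, hρ]⟩
  · have hsub : {p | b p ≠ β (QuotientGroup.mk (Φ.frob p))} ⊆ E ∪ Z := by
      intro p hp'
      by_contra hcon
      rw [Set.mem_union, not_or] at hcon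
      apply hp'
      by_contra h
      exact hcon.1 ⟨hcon.2, fun h' => h (sub_eq_zero.1 h')⟩
    have h3 : Tendsto (fun s : ℝ => primeSum E s / Real.log (1 / (s - 1)) +
        primeSum Z s / Real.log (1 / (s - 1))) (𝓝[>] 1) (𝓝 0) := by
      have := hEd.add hZ
      rwa [add_zero] at this
    refine squeeze_zero' ?_ ?_ h3
    · filter_upwards [Chb_log.eventually_gt_atTop 0] with s hs
      exact div_nonneg (Chb_nonneg s _) hs.le
    · filter_upwards [Chb_log.eventually_gt_atTop 0, Chb_gt] with s hs hs1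
      rw [← add_div]
      exact div_le_div_of_nonneg_right ((Chb_mono hs1 hsub).trans (Chb_union hs1 E Z)) hs.le
  · intro hm
    choose k' hk' using fun i => QuotientGroup.mk_surjective (k i)
    choose x' hx' using fun j => QuotientGroup.mk_surjective (x j)
    apply hkx
    rw [← hm k' x']
    congr 1
    ext i j
    rw [Matrix.of_apply, Matrix.of_apply, ← hρ, QuotientGroup.mk_mul, hk', hx']

end Pool.Agent.OneJ74
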