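import Pool.Agent.W_7742j_h74.JHad

/-! # Functions of finite rank: bound for the maximum, and for the size of the support

`sup_bound`: the matrix `M u v = φ (g u⁻¹ v) = ∑_i α i (g u⁻¹) β i v` is a product of matrices of sizes
`Γ × ρ` and `ρ × Γ`, its trace is `|Γ| φ g` and `∑_{u, v} ‖M u v‖ ^ 2 = |Γ| ∑_x ‖φ x‖ ^ 2`
(`v ↦ g u⁻¹ v` is a bijection).  Use `norm_trace_sq_le`.

`support`: if `φ g ≠ 0` is the largest value then
`‖φ g‖ ^ 2 |Γ| ≤ ρ ∑ ‖φ x‖ ^ 2 ≤ ρ |supp φ| ‖φ g‖ ^ 2`.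

`support_multi`: induction on `m` (`Fin.consEquiv`, `Fin.cons`): let `F x0 ≠ 0`, `x0 = cons a y`.  The slice
`F (cons · y)` is not zero, so for at least `|Γ| / ρ` elements `a'` we have `F (cons a' y) ≠ 0`, and for
each of these the function `F (cons a' ·)` has at least `|Γ| ^ (m - 1) / ρ ^ (m - 1)` nonzero values. -/

set_option autoImplicit false

noncomputable section

namespace Pool.Agent.OneJ74

theorem sup_bound {Γ : Type} [Group Γ] [Fintype Γ] (φ : Γ → ℂ) {ρ : ℕ} (α β : Fin ρ → Γ → ℂ)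
    (h : ∀ u v, φ (u * v) = ∑ i, α i u * β i v) (g : Γ) :
    ‖φ g‖ ^ 2 * Fintype.card Γ ≤ ρ * ∑ x, ‖φ x‖ ^ 2 := by
  classical
  let P : Matrix Γ (Fin ρ) ℂ := Matrix.of (fun u i => α i (g * u⁻¹))
  let R : Matrix (Fin ρ) Γ ℂ := Matrix.of (fun i v => β i v)
  have hPR : ∀ u v, (P * R) u v = φ (g * u⁻¹ * v) := by
    intro u v
    rw [Matrix.mul_apply, h]
    rfl
  have h1 := norm_trace_sq_le P R
  have htr : (P * R).trace = (Fintype.card Γ : ℂ) * φ g := by
    rw [Matrix.trace]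
    have : ∀ u, (P * R).diag u = φ g := by
      intro u
      rw [Matrix.diag_apply, hPR, inv_mul_cancel_right]
    rw [Finset.sum_congr rfl (fun u _ => this u)]
    simp
  have hsum : ∑ i, ∑ j, ‖(P * R) i j‖ ^ 2 = Fintype.card Γ * ∑ x, ‖φ x‖ ^ 2 := by
    have : ∀ u, ∑ j, ‖(P * R) u j‖ ^ 2 = ∑ x, ‖φ x‖ ^ 2 := by
      intro u
      have h2 := Equiv.sum_comp (Equiv.mulLeft (g * u⁻¹)) (fun x => ‖φ x‖ ^ 2)
      rw [← h2]
      refine Finset.sum_congr rfl (fun v _ => ?_)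
      rw [hPR]
      rfl
    rw [Finset.sum_congr rfl (fun u _ => this u)]
    simp
  rw [htr, hsum, norm_mul, mul_pow] at h1
  have hc : ‖(Fintype.card Γ : ℂ)‖ = Fintype.card Γ := by simp
  rw [hc] at h1
  have hpos : (0 : ℝ) < Fintype.card Γ := by
    have : 0 < Fintype.card Γ := Fintype.card_pos_iff.2 ⟨g⟩
    exact_mod_cast this
  have h3 : (Fintype.card Γ : ℝ) * (‖φ g‖ ^ 2 * Fintype.card Γ) ≤
      Fintype.card Γ * (ρ * ∑ x, ‖φ x‖ ^ 2) := by nlinarith [h1]
  exact le_of_mul_le_mul_left h3 hpos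

theorem support {Γ : Type} [Group Γ] [Fintype Γ] (φ : Γ → ℂ) {ρ : ℕ} (α β : Fin ρ → Γ → ℂ)
    (h : ∀ u v, φ (u * v) = ∑ i, α i u * β i v) {g : Γ} (hg : φ g ≠ 0) :
    Nat.card Γ ≤ ρ * Nat.card {x // φ x ≠ 0} := by
  classical
  obtain ⟨g0, -, hmax⟩ := Finset.exists_max_image (Finset.univ : Finset Γ) (fun x => ‖φ x‖)
    ⟨g, Finset.mem_univ g⟩
  have hg0 : 0 < ‖φ g0‖ := lt_of_lt_of_le (norm_pos_iff.2 hg) (hmax g (Finset.mem_univ g))
  have h1 := sup_bound φ α β h g0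
  have h2 : ∑ x, ‖φ x‖ ^ 2 ≤ Fintype.card {x // φ x ≠ 0} * ‖φ g0‖ ^ 2 := by
    have : ∑ x, ‖φ x‖ ^ 2 = ∑ x ∈ Finset.univ.filter (fun x => φ x ≠ 0), ‖φ x‖ ^ 2 := by
      rw [Finset.sum_filter]
      refine Finset.sum_congr rfl (fun x _ => ?_)
      by_cases hx : φ x = 0
      · simp [hx]
      · simp [hx]
    rw [this, Fintype.card_subtype, ← nsmul_eq_mul]
    refine Finset.sum_le_card_nsmul _ _ _ (fun x _ => ?_)
    exact pow_le_pow_left₀ (norm_nonneg _) (hmax x (Finset.mem_univ x)) 2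
  have h3 : ‖φ g0‖ ^ 2 * Fintype.card Γ ≤
      ‖φ g0‖ ^ 2 * (ρ * Fintype.card {x // φ x ≠ 0}) := by
    refine h1.trans ?_
    have := mul_le_mul_of_nonneg_left h2 (Nat.cast_nonneg (α := ℝ) ρ)
    refine this.trans (le_of_eq (by ring))
  have h4 : (Fintype.card Γ : ℝ) ≤ ρ * Fintype.card {x // φ x ≠ 0} :=
    le_of_mul_le_mul_left h3 (by positivity)
  rw [Nat.card_eq_fintype_card, Nat.card_eq_fintype_card]
  exact_mod_cast h4

theorem support_multi {Γ : Type} [Finite Γ] {ρ : ℕ} {E : Type} [Zero E] (m : ℕ)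
    (F : (Fin m → Γ) → E)
    (h : ∀ (i : Fin m) (x : Fin m → Γ) (g : Γ), F (Function.update x i g) ≠ 0 →
      Nat.card Γ ≤ ρ * Nat.card {y : Γ // F (Function.update x i y) ≠ 0})
    {x0 : Fin m → Γ} (hx0 : F x0 ≠ 0) :
    Nat.card Γ ^ m ≤ ρ ^ m * Nat.card {x // F x ≠ 0} := by
  classical
  induction m with
  | zero =>
    rw [pow_zero, pow_zero, one_mul]
    have : Nonempty {x // F x ≠ 0} := ⟨⟨x0, hx0⟩⟩
    exact Nat.card_pos
  | succ m ih =>
    -- the elements a with F (cons a y) ≠ 0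
    let y : Fin m → Γ := Fin.tail x0
    let S := {a : Γ // F (Fin.cons a y) ≠ 0}
    have hup : ∀ (b a : Γ) (z : Fin m → Γ),
        Function.update (Fin.cons b z : Fin (m + 1) → Γ) 0 a = Fin.cons a z := by
      intro b a z
      exact Fin.update_cons_zero (α := fun _ => Γ) b z a
    have hup2 : ∀ (b a : Γ) (z : Fin m → Γ) (i : Fin m),
        Function.update (Fin.cons b z : Fin (m + 1) → Γ) i.succ a =
          Fin.cons b (Function.update z i a) := by
      intro b a z i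
      exact (Fin.cons_update (α := fun _ => Γ) b z i a).symm
    have hx : F (Fin.cons (x0 0) y) ≠ 0 := by
      have : (Fin.cons (x0 0) y : Fin (m + 1) → Γ) = x0 := Fin.cons_self_tail x0
      rw [this]; exact hx0
    have hS : Nat.card Γ ≤ ρ * Nat.card S := by
      have h1 := h 0 (Fin.cons (x0 0) y) (x0 0) (by rw [hup]; exact hx)
      have h2 : Nat.card {a : Γ // F (Function.update (Fin.cons (x0 0) y) 0 a) ≠ 0} =
          Nat.card S := by
        refine Nat.card_congr (Equiv.subtypeEquivRight (fun a => ?_))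
        rw [hup]
      rw [h2] at h1
      exact h1
    have hT : ∀ a : S, Nat.card Γ ^ m ≤
        ρ ^ m * Nat.card {z : Fin m → Γ // F (Fin.cons a.1 z) ≠ 0} := by
      intro a
      refine ih (fun z => F (Fin.cons a.1 z)) ?_ (x0 := y) a.2
      intro i z g hz
      have h1 := h i.succ (Fin.cons a.1 z) g (by rw [hup2]; exact hz)
      have h2 : Nat.card {b : Γ // F (Function.update (Fin.cons a.1 z) i.succ b) ≠ 0} =
          Nat.card {b : Γ // F (Fin.cons a.1 (Function.update z i b)) ≠ 0} := by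
        refine Nat.card_congr (Equiv.subtypeEquivRight (fun b => ?_))
        rw [hup2]
      rw [h2] at h1
      exact h1
    have hinj : Nat.card (Σ a : S, {z : Fin m → Γ // F (Fin.cons a.1 z) ≠ 0}) ≤
        Nat.card {x : Fin (m + 1) → Γ // F x ≠ 0} := by
      refine Nat.card_le_card_of_injective
        (fun p => (⟨Fin.cons p.1.1 p.2.1, p.2.2⟩ : {x : Fin (m + 1) → Γ // F x ≠ 0})) ?_
      rintro ⟨⟨a, ha⟩, ⟨z, hz⟩⟩ ⟨⟨a', ha'⟩, ⟨z', hz'⟩⟩ hp
      have h1 : (Fin.cons a z : Fin (m + 1) → Γ) = Fin.cons a' z' := congrArg Subtype.val hp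
      have h2 := Fin.cons_injective2 h1
      obtain ⟨rfl, rfl⟩ := h2
      rfl
    have hfS : Finite S := inferInstance
    have : Fintype S := Fintype.ofFinite S
    rw [Nat.card_sigma] at hinj
    calc Nat.card Γ ^ (m + 1) = Nat.card Γ ^ m * Nat.card Γ := pow_succ _ _
      _ ≤ Nat.card Γ ^ m * (ρ * Nat.card S) := Nat.mul_le_mul_left _ hS
      _ = ρ * ∑ _a : S, Nat.card Γ ^ m := by
          rw [Finset.sum_const, Finset.card_univ, ← Nat.card_eq_fintype_card, smul_eq_mul]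
          ring
      _ ≤ ρ * ∑ a : S, ρ ^ m * Nat.card {z : Fin m → Γ // F (Fin.cons a.1 z) ≠ 0} :=
          Nat.mul_le_mul_left _ (Finset.sum_le_sum (fun a _ => hT a))
      _ = ρ ^ (m + 1) * ∑ a : S, Nat.card {z : Fin m → Γ // F (Fin.cons a.1 z) ≠ 0} := by
          rw [← Finset.mul_sum, pow_succ]
          ring
      _ ≤ ρ ^ (m + 1) * Nat.card {x : Fin (m + 1) → Γ // F x ≠ 0} :=
          Nat.mul_le_mul_left _ hinj

end Pool.Agent.OneJ74
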