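import Pool.Agent.W_7742j_h74.JBda

/-! # The lift is `b` up to the minor

`cor`: choose `u` with `u x_j ∈ S` for all `j` and `k_i (u⁻¹ g) ∈ S` for all `i` (`S = S f (h₁ n)`; at most
`2 ρ |Γ \ S| < |Γ|` elements are excluded, `card_compl`), `v = u⁻¹ g`.  Let `B` be the matrix over `𝓞 K` of
size `n² + 1` with entries `f (k_i x_j)`, `f (k_i v)`, `f (u x_j)` and `c` in the last corner
(`ρ = n²`, `rank_eq`; `subst`).  `ι (det B) = 0` by `OneI74.det_gram` (its entries are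
`tr (r (k'_i) * r (x'_j))`, `u v = g`), and in `K` the bordered determinant is
`det B = det F₀ * (c - ∑ f (u x_j) F₀⁻¹ f (k_i v)) = det F₀ * (c - b g)` by `hfac` and `hb`.
(`z = det B`.)

`eq2`: for `g ∈ S f (h₂ n)` and `c = f g`, `z = det F₀ (f g - b g)`; the product over `σ` of `‖σ z‖ ^ 2` is at
most `(n² h₁) ^ (n² d) * (Q (f g - b g) / d) ^ d` (`prod_det_le`, `prod_sq_le_Q`), and
`Q (f g - b g) ≤ 2 d h₂ + 2 d n²` (`Q_sub_le`; `Q (b g) ≤ ρ d = n² d` by `Q_le`, `total`, `rank_eq`), so it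
is less than `YY ^ (2 d) ≤ N ^ 2` (`ine_2`) and `z = 0`. -/

set_option autoImplicit false

noncomputable section

namespace Pool.Agent.OneJ74

open NumberField Pool.Agent.OneI74

variable {K A Γ : Type} [Field K] [NumberField K] [CommRing A] [Group Γ] [Fintype Γ] {n : ℕ}
  {ι : 𝓞 K →+* A} {r : Γ →* Matrix (Fin n) (Fin n) A} {f : Γ → 𝓞 K} {ρ : ℕ} {k x : Fin ρ → Γ}
  {b : Γ → K}

theorem JCor_border {F : Type} [Field F] {ρ : ℕ} (A : Matrix (Fin ρ) (Fin ρ) F) (hA : A.det ≠ 0)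
    (r c : Fin ρ → F) (d : F) (M : Matrix (Fin (ρ + 1)) (Fin (ρ + 1)) F)
    (h1 : ∀ i j, M (Fin.castSucc i) (Fin.castSucc j) = A i j)
    (h2 : ∀ j, M (Fin.last ρ) (Fin.castSucc j) = r j)
    (h3 : ∀ i, M (Fin.castSucc i) (Fin.last ρ) = c i)
    (h4 : M (Fin.last ρ) (Fin.last ρ) = d) :
    M.det = A.det * (d - ∑ i, ∑ j, r j * (A⁻¹ j i) * c i) := by
  haveI : Invertible A := Matrix.invertibleOfIsUnitDet A (isUnit_iff_ne_zero.mpr hA)
  have h5 : M.submatrix finSumFinEquiv finSumFinEquiv =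
      Matrix.fromBlocks A (Matrix.of fun i (_ : Fin 1) => c i) (Matrix.of fun (_ : Fin 1) j => r j)
        (Matrix.of fun (_ : Fin 1) (_ : Fin 1) => d) := by
    ext i j
    rcases i with i | i <;> rcases j with j | j
    · exact h1 i j
    · obtain rfl : j = 0 := Subsingleton.elim _ _
      exact h3 i
    · obtain rfl : i = 0 := Subsingleton.elim _ _
      exact h2 j
    · obtain rfl : i = 0 := Subsingleton.elim _ _
      obtain rfl : j = 0 := Subsingleton.elim _ _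
      exact h4
  have h6 : M.det = (M.submatrix finSumFinEquiv finSumFinEquiv).det :=
    (Matrix.det_submatrix_equiv_self finSumFinEquiv M).symm
  rw [h6, h5, Matrix.det_fromBlocks₁₁, Matrix.det_fin_one, Matrix.sub_apply, Matrix.mul_apply]
  congr 2
  refine Finset.sum_congr rfl fun i _ => ?_
  rw [Matrix.mul_apply, Finset.sum_mul]
  refine Finset.sum_congr rfl fun j _ => ?_
  rw [Matrix.invOf_eq_nonsing_inv]
  rfl

theorem BDat.cor (H : BDat ι r f ρ k x b) (g : Γ) (c : 𝓞 K) (hc : ι c = (r g).trace) :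
    ∃ z ∈ RingHom.ker ι, (z : K) = (mat f k x).det * (c - b g) := by
  classical
  obtain rfl : ρ = n ^ 2 := H.rank_eq
  set m := Nat.card {y // y ∉ S f (h₁ n)} with hm
  have hcard : Fintype.card (Fin (n ^ 2) ⊕ Fin (n ^ 2)) * m < Nat.card Γ := by
    have e1 := H.set1.card_compl (h₁ n)
    rw [Fintype.card_sum, Fintype.card_fin]
    rcases Nat.eq_zero_or_pos m with h0 | h0
    · rw [h0, mul_zero]
      exact Nat.card_pos
    · refine lt_of_lt_of_le ?_ e1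
      refine Nat.mul_lt_mul_of_pos_right ?_ h0
      unfold h₁
      nlinarith [Nat.zero_le (n ^ 2)]
  obtain ⟨u, hu⟩ := JExt_avoid (S f (h₁ n)) (ι := Fin (n ^ 2) ⊕ Fin (n ^ 2))
    (Sum.elim (fun j z => z * x j) (fun i z => k i * (z⁻¹ * g)))
    (by
      rintro (j | i) z z' hzz
      · exact mul_right_cancel hzz
      · exact inv_injective (mul_right_cancel (mul_left_cancel hzz))) hcard
  have hu1 : ∀ j, u * x j ∈ S f (h₁ n) := fun j => hu (Sum.inl j)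
  have hu2 : ∀ i, k i * (u⁻¹ * g) ∈ S f (h₁ n) := fun i => hu (Sum.inr i)
  obtain ⟨k', hk'⟩ : ∃ k' : Fin (n ^ 2 + 1) → Γ, k' = Fin.snoc k u := ⟨_, rfl⟩
  obtain ⟨x', hx'⟩ : ∃ x' : Fin (n ^ 2 + 1) → Γ, x' = Fin.snoc x (u⁻¹ * g) := ⟨_, rfl⟩
  have hk1 : ∀ i, k' (Fin.castSucc i) = k i := fun i => by rw [hk', Fin.snoc_castSucc]
  have hk2 : k' (Fin.last _) = u := by rw [hk', Fin.snoc_last]
  have hx1 : ∀ i, x' (Fin.castSucc i) = x i := fun i => by rw [hx', Fin.snoc_castSucc]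
  have hx2 : x' (Fin.last _) = u⁻¹ * g := by rw [hx', Fin.snoc_last]
  obtain ⟨B, hB⟩ : ∃ B : Matrix (Fin (n ^ 2 + 1)) (Fin (n ^ 2 + 1)) (𝓞 K), B = Matrix.of fun i j =>
    if i = Fin.last _ ∧ j = Fin.last _ then c else f (k' i * x' j) := ⟨_, rfl⟩
  have hne : ∀ i : Fin (n ^ 2), Fin.castSucc i ≠ Fin.last (n ^ 2) := fun i =>
    (Fin.castSucc_lt_last i).ne
  have hB1 : ∀ i j, B (Fin.castSucc i) (Fin.castSucc j) = f (k i * x j) := by
    intro i j
    rw [hB, Matrix.of_apply, if_neg (fun h => hne i h.1), hk1, hx1]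
  have hB2 : ∀ j, B (Fin.last _) (Fin.castSucc j) = f (u * x j) := by
    intro j
    rw [hB, Matrix.of_apply, if_neg (fun h => hne j h.2), hk2, hx1]
  have hB3 : ∀ i, B (Fin.castSucc i) (Fin.last _) = f (k i * (u⁻¹ * g)) := by
    intro i
    rw [hB, Matrix.of_apply, if_neg (fun h => hne i h.1), hk1, hx2]
  have hB4 : B (Fin.last _) (Fin.last _) = c := by
    rw [hB, Matrix.of_apply, if_pos ⟨rfl, rfl⟩]
  refine ⟨B.det, ?_, ?_⟩
  · rw [RingHom.mem_ker, RingHom.map_det]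
    have h4 : ι.mapMatrix B = Matrix.of fun i j => (r (k' i) * r (x' j)).trace := by
      ext i j
      rw [RingHom.mapMatrix_apply, Matrix.map_apply, hB, Matrix.of_apply, Matrix.of_apply,
        ← map_mul]
      split_ifs with h
      · rw [h.1, h.2, hk2, hx2, hc, mul_inv_cancel_left]
      · rw [H.set1.hf]
    rw [h4]
    exact det_gram (by omega) _ _
  · have h5 : ((B.det : 𝓞 K) : K) = (B.map (algebraMap (𝓞 K) K)).det := by
      rw [← RingHom.mapMatrix_apply, ← RingHom.map_det]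
    rw [h5]
    have h6 := JCor_border (mat f k x) H.hdet (fun j => ((f (u * x j) : 𝓞 K) : K))
      (fun i => ((f (k i * (u⁻¹ * g)) : 𝓞 K) : K)) (c : K) (B.map (algebraMap (𝓞 K) K))
      (fun i j => by rw [Matrix.map_apply, hB1]; rfl)
      (fun j => by rw [Matrix.map_apply, hB2])
      (fun i => by rw [Matrix.map_apply, hB3])
      (by rw [Matrix.map_apply, hB4])
    rw [h6]
    congr 2
    have h7 := H.hfac u (u⁻¹ * g)
    rw [mul_inv_cancel_left] at h7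
    rw [h7]
    refine Finset.sum_congr rfl fun i _ => Finset.sum_congr rfl fun j _ => ?_
    rw [H.hb _ (hu1 j), H.hb _ (hu2 i)]

theorem BDat.eq2 (H : BDat ι r f ρ k x b) {g : Γ} (hg : g ∈ S f (h₂ n)) : b g = f g := by
  classical
  have hd : Module.finrank ℚ K ≠ 0 := (Module.finrank_pos (R := ℚ) (M := K)).ne'
  have hDr : (0 : ℝ) < Module.finrank ℚ K := Nat.cast_pos.2 Module.finrank_pos
  have hρ := H.rank_eq
  obtain ⟨z, hz, hz2⟩ := H.cor g (f g) (H.set1.hf g)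
  have hQb : Q (b g) ≤ Module.finrank ℚ K * (n : ℝ) ^ 2 := by
    have h1 := H.Q_le g
    have h2 := H.total
    have hG : (0 : ℝ) < Fintype.card Γ := Nat.cast_pos.2 Fintype.card_pos
    have h3 : (ρ : ℝ) = (n : ℝ) ^ 2 := by rw [hρ]; push_cast; rfl
    have h4 : Q (b g) * Fintype.card Γ ≤
        (Module.finrank ℚ K * (n : ℝ) ^ 2) * Fintype.card Γ := by
      refine h1.trans ?_
      rw [h3]
      have := mul_le_mul_of_nonneg_left h2 (sq_nonneg (n : ℝ))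
      linarith
    exact le_of_mul_le_mul_right h4 hG
  have hQ : Q (((f g : 𝓞 K) : K) - b g) / Module.finrank ℚ K ≤ 2 * h₂ n + 2 * (n : ℝ) ^ 2 := by
    rw [div_le_iff₀ hDr]
    have h1 := Q_sub_le ((f g : 𝓞 K) : K) (b g)
    have h2 : Q ((f g : 𝓞 K) : K) ≤ Module.finrank ℚ K * (h₂ n : ℝ) := hg
    nlinarith
  have h1 := prod_det_le (mat f k x) (h := (h₁ n : ℝ)) (fun i j => H.hkx i j)
  have h2 := prod_sq_le_Q (((f g : 𝓞 K) : K) - b g)
  have h0 : 0 ≤ Q (((f g : 𝓞 K) : K) - b g) / Module.finrank ℚ K :=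
    div_nonneg (Q_nonneg _) hDr.le
  have h3 : ∏ σ : K →+* ℂ, ‖σ (z : K)‖ ^ 2 < (Ideal.absNorm (RingHom.ker ι) : ℝ) ^ 2 := by
    have e1 : ∏ σ : K →+* ℂ, ‖σ (z : K)‖ ^ 2 = (∏ σ : K →+* ℂ, ‖σ (mat f k x).det‖ ^ 2) *
        ∏ σ : K →+* ℂ, ‖σ (((f g : 𝓞 K) : K) - b g)‖ ^ 2 := by
      rw [← Finset.prod_mul_distrib]
      refine Finset.prod_congr rfl fun σ _ => ?_
      rw [hz2, map_mul, norm_mul, mul_pow]
    have e2 : ∏ σ : K →+* ℂ, ‖σ (z : K)‖ ^ 2 ≤ ((ρ : ℝ) * h₁ n) ^ (ρ * Module.finrank ℚ K) *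
        (2 * h₂ n + 2 * (n : ℝ) ^ 2) ^ Module.finrank ℚ K := by
      rw [e1]
      refine mul_le_mul h1 (h2.trans (pow_le_pow_left₀ h0 hQ _))
        (Finset.prod_nonneg fun _ _ => sq_nonneg _) (by positivity)
    refine e2.trans_lt ?_
    have h8 : (n ^ 2 * h₁ n) ^ (n ^ 2 * Module.finrank ℚ K) *
        (2 * h₂ n + 2 * n ^ 2) ^ Module.finrank ℚ K < (Ideal.absNorm (RingHom.ker ι)) ^ 2 := by
      calc (n ^ 2 * h₁ n) ^ (n ^ 2 * Module.finrank ℚ K) *
          (2 * h₂ n + 2 * n ^ 2) ^ Module.finrank ℚ K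
          = ((n ^ 2 * h₁ n) ^ (n ^ 2) * (2 * h₂ n + 2 * n ^ 2)) ^ Module.finrank ℚ K := by
            rw [mul_pow ((n ^ 2 * h₁ n) ^ (n ^ 2)), pow_mul]
        _ < (YY n ^ 2) ^ Module.finrank ℚ K := Nat.pow_lt_pow_left (ine_2 H.set1.hn) hd
        _ = (YY n ^ Module.finrank ℚ K) ^ 2 := by rw [← pow_mul, ← pow_mul, mul_comm]
        _ ≤ (Ideal.absNorm (RingHom.ker ι)) ^ 2 := Nat.pow_le_pow_left H.set1.hN 2
    rw [hρ]
    exact_mod_cast h8
  have h4 := eq_zero_of_prod (RingHom.ker ι) hz h3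
  rw [h4] at hz2
  have h5 : (mat f k x).det * (((f g : 𝓞 K) : K) - b g) = 0 := by
    rw [← hz2]
    simp
  rcases mul_eq_zero.1 h5 with h6 | h6
  · exact absurd h6 H.hdet
  · exact (sub_eq_zero.1 h6).symm

end Pool.Agent.OneJ74
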