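import Pool.Agent.W_7742j_h74.JDef

/-! # Tuples all of whose words are good

`pol T k x` depends only on the values of `T` at the words which occur in the recursion (`Good`).

`card_bad`: by induction; the complement of `Good (k + 1)` is contained in the union of
`{x 0 ∉ S}`, `{tail x bad}` and, for `a : Fin k`, `{update (tail x) a (x a.succ * x 0) bad}`; for fixed `x 0`
the map `y ↦ update y a (y a * x 0)` is a bijection of `Fin k → Γ`, so the last set has
`|Γ| * |bad k|` elements.  With `B k = |bad k|`, `s = |Γ \ S|`:
`B (k + 1) ≤ s |Γ| ^ k + (k + 1) |Γ| B k`. -/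

set_option autoImplicit false

noncomputable section

namespace Pool.Agent.OneJ74

open Pool.Agent.OneI74

/-- All words which occur in the recursion for `pol` lie in `S`. -/
def Good {Γ : Type} [Mul Γ] (S : Set Γ) : (k : ℕ) → (Fin k → Γ) → Prop
  | 0, _ => True
  | k + 1, x => x 0 ∈ S ∧ Good S k (Fin.tail x) ∧
      ∀ a : Fin k, Good S k (Function.update (Fin.tail x) a (x a.succ * x 0))

/-- Number of the words. -/
def wd : ℕ → ℕ
  | 0 => 0
  | k + 1 => 1 + (k + 1) * wd k

theorem wd_le (k : ℕ) : wd k ≤ 2 * k.factorial := by
  have h : ∀ k : ℕ, wd (k + 1) + 1 ≤ 2 * (k + 1).factorial := by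
    intro k
    induction k with
    | zero => simp [wd]
    | succ k ih =>
      have h1 : wd (k + 1 + 1) = 1 + (k + 1 + 1) * wd (k + 1) := rfl
      have h2 : (k + 1 + 1) * (wd (k + 1) + 1) ≤ (k + 1 + 1) * (2 * (k + 1).factorial) :=
        Nat.mul_le_mul_left _ ih
      rw [h1, Nat.factorial_succ (k + 1)]
      nlinarith
  cases k with
  | zero => simp [wd]
  | succ k => exact (Nat.le_succ _).trans (h k)

theorem pol_congr {Γ A : Type} [Mul Γ] [CommRing A] {S : Set Γ} {T T' : Γ → A}
    (h : ∀ x ∈ S, T x = T' x) (k : ℕ) (x : Fin k → Γ) (hx : Good S k x) :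
    pol T k x = pol T' k x := by
  induction k with
  | zero => rfl
  | succ k ih =>
    obtain ⟨h1, h2, h3⟩ := hx
    rw [pol_succ, pol_succ, h _ h1, ih _ h2]
    congr 1
    exact Finset.sum_congr rfl fun a _ => ih _ (h3 a)

theorem card_bad {Γ : Type} [Group Γ] [Finite Γ] (S : Set Γ) (k : ℕ) :
    Nat.card {x : Fin k → Γ // ¬ Good S k x} * Nat.card Γ ≤
      wd k * Nat.card {g // g ∉ S} * Nat.card Γ ^ k := by
  classical
  cases nonempty_fintype Γ
  induction k with
  | zero =>
    have h0 : Nat.card {x : Fin 0 → Γ // ¬ Good S 0 x} = 0 := by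
      have : IsEmpty {x : Fin 0 → Γ // ¬ Good S 0 x} := ⟨fun x => x.2 trivial⟩
      exact Nat.card_of_isEmpty
    rw [h0, zero_mul]
    exact Nat.zero_le _
  | succ k ih =>
    set Bk : Finset (Fin k → Γ) := Finset.univ.filter fun y => ¬ Good S k y with hBk
    set Sc : Finset Γ := Finset.univ.filter fun g => g ∉ S with hSc
    have e1 : Nat.card {x : Fin k → Γ // ¬ Good S k x} = Bk.card := by
      rw [Nat.card_eq_fintype_card, Fintype.card_subtype]
    have e2 : Nat.card {g // g ∉ S} = Sc.card := by
      rw [Nat.card_eq_fintype_card, Fintype.card_subtype]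
    have e3 : Nat.card {x : Fin (k + 1) → Γ // ¬ Good S (k + 1) x} =
        (Finset.univ.filter fun x : Fin (k + 1) → Γ => ¬ Good S (k + 1) x).card := by
      rw [Nat.card_eq_fintype_card, Fintype.card_subtype]
    have e4 : Nat.card Γ = (Finset.univ : Finset Γ).card := by
      rw [Nat.card_eq_fintype_card, Finset.card_univ]
    have hpair : ∀ x y : Fin (k + 1) → Γ, x 0 = y 0 → Fin.tail x = Fin.tail y → x = y := by
      intro x y h0 h1
      rw [← Fin.cons_self_tail x, ← Fin.cons_self_tail y, h0, h1]
    have c0 : (Finset.univ.filter fun x : Fin (k + 1) → Γ => x 0 ∉ S).card ≤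
        Sc.card * Nat.card Γ ^ k := by
      have h1 : (Finset.univ.filter fun x : Fin (k + 1) → Γ => x 0 ∉ S).card ≤
          (Sc ×ˢ (Finset.univ : Finset (Fin k → Γ))).card := by
        refine Finset.card_le_card_of_injOn (fun x => (x 0, Fin.tail x)) ?_ ?_
        · intro x hx
          simp only [Finset.coe_filter, Finset.mem_univ, true_and, Set.mem_setOf_eq] at hx
          simp only [Finset.coe_product, Set.mem_prod, Finset.mem_coe, hSc, Finset.mem_filter,
            Finset.mem_univ, true_and, and_true]
          exact hx
        · intro x _ y _ hxy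
          simp only [Prod.mk.injEq] at hxy
          exact hpair x y hxy.1 hxy.2
      rw [Finset.card_product] at h1
      have h2 : (Finset.univ : Finset (Fin k → Γ)).card = Nat.card Γ ^ k := by
        rw [Finset.card_univ, Fintype.card_fun, Fintype.card_fin, Nat.card_eq_fintype_card]
      rwa [h2] at h1
    have c1 : (Finset.univ.filter fun x : Fin (k + 1) → Γ => ¬ Good S k (Fin.tail x)).card ≤
        Nat.card Γ * Bk.card := by
      have h1 : (Finset.univ.filter fun x : Fin (k + 1) → Γ => ¬ Good S k (Fin.tail x)).card ≤
          ((Finset.univ : Finset Γ) ×ˢ Bk).card := by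
        refine Finset.card_le_card_of_injOn (fun x => (x 0, Fin.tail x)) ?_ ?_
        · intro x hx
          simp only [Finset.coe_filter, Finset.mem_univ, true_and, Set.mem_setOf_eq] at hx
          simp only [Finset.coe_product, Set.mem_prod, Finset.mem_coe, hBk, Finset.mem_filter,
            Finset.mem_univ, true_and]
          exact hx
        · intro x _ y _ hxy
          simp only [Prod.mk.injEq] at hxy
          exact hpair x y hxy.1 hxy.2
      rwa [Finset.card_product, ← e4] at h1
    have c2 : ∀ a : Fin k, (Finset.univ.filter fun x : Fin (k + 1) → Γ =>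
        ¬ Good S k (Function.update (Fin.tail x) a (x a.succ * x 0))).card ≤
        Nat.card Γ * Bk.card := by
      intro a
      have h1 : (Finset.univ.filter fun x : Fin (k + 1) → Γ =>
          ¬ Good S k (Function.update (Fin.tail x) a (x a.succ * x 0))).card ≤
          ((Finset.univ : Finset Γ) ×ˢ Bk).card := by
        refine Finset.card_le_card_of_injOn
          (fun x => (x 0, Function.update (Fin.tail x) a (x a.succ * x 0))) ?_ ?_
        · intro x hx
          simp only [Finset.coe_filter, Finset.mem_univ, true_and, Set.mem_setOf_eq] at hx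
          simp only [Finset.coe_product, Set.mem_prod, Finset.mem_coe, hBk, Finset.mem_filter,
            Finset.mem_univ, true_and]
          exact hx
        · intro x _ y _ hxy
          simp only [Prod.mk.injEq] at hxy
          obtain ⟨h0, h1⟩ := hxy
          refine hpair x y h0 ?_
          funext i
          by_cases hi : i = a
          · subst hi
            have h2 := congrFun h1 i
            rw [Function.update_self, Function.update_self, h0] at h2
            exact mul_right_cancel h2
          · have h2 := congrFun h1 i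
            rwa [Function.update_of_ne hi, Function.update_of_ne hi] at h2
      rwa [Finset.card_product, ← e4] at h1
    have hsub : (Finset.univ.filter fun x : Fin (k + 1) → Γ => ¬ Good S (k + 1) x) ⊆
        ((Finset.univ.filter fun x : Fin (k + 1) → Γ => x 0 ∉ S) ∪
          (Finset.univ.filter fun x : Fin (k + 1) → Γ => ¬ Good S k (Fin.tail x))) ∪
        (Finset.univ : Finset (Fin k)).biUnion fun a =>
          Finset.univ.filter fun x : Fin (k + 1) → Γ =>
            ¬ Good S k (Function.update (Fin.tail x) a (x a.succ * x 0)) := by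
      intro x hx
      simp only [Finset.mem_filter, Finset.mem_univ, true_and, Finset.mem_union,
        Finset.mem_biUnion] at hx ⊢
      by_contra hcon
      push Not at hcon
      exact hx ⟨hcon.1.1, hcon.1.2, hcon.2⟩
    have hcard := Finset.card_le_card hsub
    have hu1 := Finset.card_union_le
      ((Finset.univ.filter fun x : Fin (k + 1) → Γ => x 0 ∉ S) ∪
          (Finset.univ.filter fun x : Fin (k + 1) → Γ => ¬ Good S k (Fin.tail x)))
      ((Finset.univ : Finset (Fin k)).biUnion fun a =>
          Finset.univ.filter fun x : Fin (k + 1) → Γ =>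
            ¬ Good S k (Function.update (Fin.tail x) a (x a.succ * x 0)))
    have hu2 := Finset.card_union_le
      (Finset.univ.filter fun x : Fin (k + 1) → Γ => x 0 ∉ S)
      (Finset.univ.filter fun x : Fin (k + 1) → Γ => ¬ Good S k (Fin.tail x))
    have hu3 := Finset.card_biUnion_le (s := (Finset.univ : Finset (Fin k)))
      (t := fun a => Finset.univ.filter fun x : Fin (k + 1) → Γ =>
            ¬ Good S k (Function.update (Fin.tail x) a (x a.succ * x 0)))
    have hu4 : (∑ a : Fin k, (Finset.univ.filter fun x : Fin (k + 1) → Γ =>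
            ¬ Good S k (Function.update (Fin.tail x) a (x a.succ * x 0))).card) ≤
        k * (Nat.card Γ * Bk.card) := by
      have := Finset.sum_le_sum fun (a : Fin k) (_ : a ∈ Finset.univ) => c2 a
      rwa [Finset.sum_const, Finset.card_univ, Fintype.card_fin, smul_eq_mul] at this
    have htot : (Finset.univ.filter fun x : Fin (k + 1) → Γ => ¬ Good S (k + 1) x).card ≤
        Sc.card * Nat.card Γ ^ k + (k + 1) * (Nat.card Γ * Bk.card) := by
      have : (k + 1) * (Nat.card Γ * Bk.card) =
          Nat.card Γ * Bk.card + k * (Nat.card Γ * Bk.card) := by ring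
      omega
    rw [e1, e2] at ih
    rw [e3, e2]
    have h5 : wd (k + 1) = 1 + (k + 1) * wd k := rfl
    calc _ ≤ (Sc.card * Nat.card Γ ^ k + (k + 1) * (Nat.card Γ * Bk.card)) * Nat.card Γ :=
          Nat.mul_le_mul_right _ htot
      _ = Sc.card * Nat.card Γ ^ (k + 1) + (k + 1) * Nat.card Γ * (Bk.card * Nat.card Γ) := by
          ring
      _ ≤ Sc.card * Nat.card Γ ^ (k + 1) +
          (k + 1) * Nat.card Γ * (wd k * Sc.card * Nat.card Γ ^ k) :=
          Nat.add_le_add_left (Nat.mul_le_mul_left _ ih) _
      _ = wd (k + 1) * Sc.card * Nat.card Γ ^ (k + 1) := by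
          rw [h5]
          ring

end Pool.Agent.OneJ74
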