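import Pool.Agent.W_7742j_h74.JDef

/-! # The polynomials `pol b k` in one variable

`b` is a class function on a group with values in a field.  As a function of one variable
`pol b k` is a linear combination of the functions `y ↦ b (w y)`, for `k ≥ 1`.

Proof: induction on `k`, as for `PsC_zero`, `PsC_succ` in `W_7742z_h74/PsC.lean`.  Let
`V = span {y ↦ b (w y)}`; it is stable under `φ ↦ φ (w ·)` and `φ ↦ φ (· w)` (`b (v y w) = b (w v y)`).
In `pol b (k + 1) x = b (x 0) pol b k (tail x) - ∑_a pol b k (update (tail x) a (x a.succ * x 0))` the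
variable `x 0` occurs in `b (x 0)` and in the slices `a` of `pol b k` at `x a.succ * x 0`; the variable
`x l.succ` occurs in the slice `l` of `pol b k (tail x)`, in the slice `l` of the terms `a ≠ l`, and in the
slice `l` of the term `a = l` at `y * x 0`. -/

set_option autoImplicit false

noncomputable section

namespace Pool.Agent.OneJ74

open Pool.Agent.OneI74

theorem sli_zero {Γ F : Type} [Group Γ] [Field F] (b : Γ → F) (k : ℕ) (x : Fin (k + 1) → Γ) (u : Γ) :
    pol b (k + 1) (Function.update x 0 u) = b u * pol b k (Fin.tail x) -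
      ∑ a : Fin k, pol b k (Function.update (Fin.tail x) a (x a.succ * u)) := by
  rw [pol_succ, Fin.tail_update_zero, Function.update_self]
  congr 1

theorem sli_succ {Γ F : Type} [Group Γ] [Field F] (b : Γ → F) (k : ℕ) (x : Fin (k + 1) → Γ)
    (l : Fin k) (u : Γ) :
    pol b (k + 1) (Function.update x l.succ u) = b (x 0) * pol b k (Function.update (Fin.tail x) l u) -
      ∑ a : Fin k, if a = l then pol b k (Function.update (Fin.tail x) l (u * x 0)) else
        pol b k (Function.update (Function.update (Fin.tail x) a (x a.succ * x 0)) l u) := by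
  rw [pol_succ, Fin.tail_update_succ, Function.update_of_ne (Fin.succ_ne_zero l).symm]
  congr 1
  refine Finset.sum_congr rfl fun a _ => ?_
  split_ifs with h
  · subst h
    rw [Function.update_self, Function.update_idem]
  · have h1 : a.succ ≠ l.succ := fun h2 => h (Fin.succ_injective _ h2)
    rw [Function.update_of_ne h1, Function.update_comm h]

/-- The span of the translates `y ↦ b (w y)`. -/
def sliV {Γ F : Type} [Group Γ] [Field F] (b : Γ → F) : Submodule F (Γ → F) :=
  Submodule.span F (Set.range fun w : Γ => fun y : Γ => b (w * y))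

theorem sliV_left {Γ F : Type} [Group Γ] [Field F] (b : Γ → F) (v : Γ) (φ : Γ → F)
    (hφ : φ ∈ sliV b) : (fun y => φ (v * y)) ∈ sliV b := by
  have h : sliV b ≤ (sliV b).comap (LinearMap.funLeft F F fun y : Γ => v * y) := by
    refine Submodule.span_le.2 ?_
    rintro _ ⟨w, rfl⟩
    refine Submodule.subset_span ⟨w * v, ?_⟩
    funext y
    change b (w * v * y) = b (w * (v * y))
    rw [mul_assoc]
  exact h hφ

theorem sliV_right {Γ F : Type} [Group Γ] [Field F] (b : Γ → F) (hb : ∀ x y, b (x * y) = b (y * x))
    (v : Γ) (φ : Γ → F) (hφ : φ ∈ sliV b) : (fun y => φ (y * v)) ∈ sliV b := by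
  have h : sliV b ≤ (sliV b).comap (LinearMap.funLeft F F fun y : Γ => y * v) := by
    refine Submodule.span_le.2 ?_
    rintro _ ⟨w, rfl⟩
    refine Submodule.subset_span ⟨v * w, ?_⟩
    funext y
    change b (v * w * y) = b (w * (y * v))
    rw [← mul_assoc w y v, hb (w * y) v, mul_assoc]
  exact h hφ

theorem sli_mem {Γ F : Type} [Group Γ] [Field F] (b : Γ → F) (hb : ∀ x y, b (x * y) = b (y * x))
    (k : ℕ) : ∀ (x : Fin k → Γ) (i : Fin k),
    (fun y : Γ => pol b k (Function.update x i y)) ∈ sliV b := by
  induction k with
  | zero => intro x i; exact i.elim0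
  | succ k ih =>
    intro x i
    rcases Fin.eq_zero_or_eq_succ i with rfl | ⟨l, rfl⟩
    · have h1 : (fun y : Γ => pol b (k + 1) (Function.update x 0 y)) =
          pol b k (Fin.tail x) • (fun y : Γ => b (1 * y)) -
            ∑ a : Fin k, fun y : Γ => pol b k (Function.update (Fin.tail x) a (x a.succ * y)) := by
        funext y
        rw [sli_zero]
        simp only [Pi.sub_apply, Pi.smul_apply, Finset.sum_apply, smul_eq_mul, one_mul]
        rw [mul_comm]
      rw [h1]
      refine (sliV b).sub_mem ((sliV b).smul_mem _ (Submodule.subset_span ⟨1, rfl⟩)) ?_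
      refine (sliV b).sum_mem fun a _ => ?_
      exact sliV_left b (x a.succ) _ (ih (Fin.tail x) a)
    · have h1 : (fun y : Γ => pol b (k + 1) (Function.update x l.succ y)) =
          b (x 0) • (fun y : Γ => pol b k (Function.update (Fin.tail x) l y)) -
            ∑ a : Fin k, fun y : Γ =>
              if a = l then pol b k (Function.update (Fin.tail x) l (y * x 0)) else
              pol b k (Function.update (Function.update (Fin.tail x) a (x a.succ * x 0)) l y) := by
        funext y
        rw [sli_succ]
        simp only [Pi.sub_apply, Pi.smul_apply, Finset.sum_apply, smul_eq_mul]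
      rw [h1]
      refine (sliV b).sub_mem ((sliV b).smul_mem _ (ih _ _)) ?_
      refine (sliV b).sum_mem fun a _ => ?_
      by_cases h : a = l
      · simp only [h, if_true]
        exact sliV_right b hb (x 0) _ (ih (Fin.tail x) l)
      · simp only [h, if_false]
        exact ih _ _

theorem pol_slice {Γ F : Type} [Group Γ] [Field F] (b : Γ → F) (hb : ∀ x y, b (x * y) = b (y * x))
    (k : ℕ) (x : Fin k → Γ) (i : Fin k) :
    (fun y : Γ => pol b k (Function.update x i y)) ∈
      Submodule.span F (Set.range fun w : Γ => fun y : Γ => b (w * y)) :=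
  sli_mem b hb k x i

end Pool.Agent.OneJ74
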