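import Pool.Agent.W_7742z_h74.PsA
import Pool.Agent.W_7742z_h74.PsB
import Pool.Agent.W_7742z_h74.Gram
import Pool.Agent.W_7742z_h74.Sml

/-! # Definitions: representations of a finite group and small lifts of the trace -/

set_option autoImplicit false

noncomputable section

namespace Pool.Agent.OneJ74

open NumberField Pool.Agent.OneI74

/-- Sum of the squares of the absolute values of the conjugates. -/
def Q {K : Type} [Field K] [NumberField K] (w : K) : ℝ := ∑ σ : K →+* ℂ, ‖σ w‖ ^ 2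

/-- The square of the first bound. -/
def h₁ (n : ℕ) : ℕ := 2 * n ^ 2 * (n ^ 2 + 1) + 1

/-- The square of the second bound. -/
def h₂ (n : ℕ) : ℕ := 2 * (n + 1).factorial * n ^ (2 * (n + 1)) + 1

/-- The norm of the ideal is at least `YY n ^ d`. -/
def YY (n : ℕ) : ℕ := (2 * n) ^ (3 * (n ^ 2 + 1))

/-- `YY n = ZZ n * n ^ (2 n²)`. -/
def ZZ (n : ℕ) : ℕ := 2 ^ (3 * (n ^ 2 + 1)) * n ^ (n ^ 2 + 3)

variable {K A Γ : Type} [Field K] [NumberField K] [CommRing A] [Group Γ] {n : ℕ}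

/-- `f` is a lift of the trace of `r` with values of minimal size and mean square at most one. -/
structure Set1 [Fintype Γ] (ι : 𝓞 K →+* A) (r : Γ →* Matrix (Fin n) (Fin n) A) (f : Γ → 𝓞 K) :
    Prop where
  hn : 0 < n
  hN : YY n ^ Module.finrank ℚ K ≤ Ideal.absNorm (RingHom.ker ι)
  hf : ∀ x, ι (f x) = (r x).trace
  hmin : ∀ x c, ι c = (r x).trace → Q (f x : K) ≤ Q (c : K)
  hcomm : ∀ x y, f (x * y) = f (y * x)
  hE : ∑ x, Q (f x : K) ≤ Module.finrank ℚ K * Fintype.card Γ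

/-- The elements with a small lift. -/
def S (f : Γ → 𝓞 K) (h : ℕ) : Set Γ := {x | Q (f x : K) ≤ Module.finrank ℚ K * (h : ℝ)}

/-- The matrix `f (k i * x j)` over `K`. -/
def mat {ρ : ℕ} (f : Γ → 𝓞 K) (k x : Fin ρ → Γ) : Matrix (Fin ρ) (Fin ρ) K :=
  Matrix.of fun i j => (f (k i * x j) : K)

/-- The extension `b` of `f` with values in `K`. -/
structure BDat [Fintype Γ] (ι : 𝓞 K →+* A) (r : Γ →* Matrix (Fin n) (Fin n) A) (f : Γ → 𝓞 K)
    (ρ : ℕ) (k x : Fin ρ → Γ) (b : Γ → K) : Prop where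
  set1 : Set1 ι r f
  hρ : ρ ≤ n ^ 2
  hkx : ∀ i j, k i * x j ∈ S f (h₁ n)
  hdet : (mat f k x).det ≠ 0
  hb : ∀ g ∈ S f (h₁ n), b g = f g
  hfac : ∀ u v, b (u * v) = ∑ i, ∑ j, b (u * x j) * ((mat f k x)⁻¹ j i) * b (k i * v)

end Pool.Agent.OneJ74
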