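import Mathlib

/-! # Extension of a function of finite rank from a large subset of a finite group

`F₀ = (f (k i * x j))`, invertible; `(ρ + 1) × (ρ + 1)` minors with all entries at elements of `S` vanish.
The complement of `S` has less than `|Γ| / (2 ρ (ρ + 1))` elements.

Write `R u j = f (u x_j)`, `C v i = f (k_i v)`, `F w i j = f (k_i w x_j)`.  Let
`S_r = {u | ∀ j, u x_j ∈ S}`, `S_c = {v | ∀ i, k_i v ∈ S}`, `S_1 = {w | ∀ i j, k_i w x_j ∈ S}`; their
complements have at most `ρ m`, `ρ m`, `ρ² m` elements, where `m = |Γ \ S|`.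

(1) For `u ∈ S_r`, `v ∈ S_c`, `u v ∈ S`: `f (u v) = R u F₀⁻¹ C v`: the bordered determinant of size `ρ + 1`
(rows `k, u`, columns `x, v`: `Fin.snoc` or `Fin.cons`) vanishes and equals
`det F₀ * (f (u v) - R u F₀⁻¹ C v)` (`Matrix.det_fromBlocks₁₁` after reindexing).

(2) For `u, u w ∈ S_r`, `w ∈ S_1`: `R (u w) = R u F₀⁻¹ F w` ((1) with `v = w x_j`).  For `v, w v ∈ S_c`,
`w ∈ S_1`: `C (w v) = F w F₀⁻¹ C v`.

(3) Put `B u v = R u F₀⁻¹ C v`.  If `u, u w ∈ S_r`, `v, w v ∈ S_c`, `w ∈ S_1` then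
`B (u w) v = R u F₀⁻¹ F w F₀⁻¹ C v = B u (w v)`.

(4) Let `g = u v = u' v'` with `u, u' ∈ S_r`, `v, v' ∈ S_c`.  Choose `z ∈ S_r` with `z⁻¹ g ∈ S_c`,
`u⁻¹ z ∈ S_1`, `u'⁻¹ z ∈ S_1` (less than `|Γ|` elements are excluded: `2 ρ m + 2 ρ² m`).  By (3)
`B u v = B z (z⁻¹ g) = B u' v'`.  So `b g := B u v` for any such `u, v` is well defined.

(5) `b = f` on `S` by (1).

(6) `b (u v) = ∑ b (u x_j) F₀⁻¹ C v` for `v ∈ S_c` and all `u`: choose `z ∈ S_r` with `z⁻¹ u ∈ S_1`,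
`z⁻¹ u v ∈ S_c`; `b (u v) = R z F₀⁻¹ C (z⁻¹ u v) = R z F₀⁻¹ F (z⁻¹ u) F₀⁻¹ C v` and
`(R z F₀⁻¹ F (z⁻¹ u))_l = R z F₀⁻¹ C (z⁻¹ u x_l) = b (u x_l)`.

(7) For all `u, v`: choose `w ∈ S_1` with `w⁻¹ v ∈ S_c`;
`b (u v) = b ((u w) (w⁻¹ v)) = ∑ b (u w x_j) F₀⁻¹ C (w⁻¹ v)` by (6),
`b (u w x_j) = ∑ b (u x_l) F₀⁻¹ C (w x_j) ` by (6) (`w x_j ∈ S_c`), `C (w x_j) i = F w i j`, and
`∑_j F w i j F₀⁻¹ C (w⁻¹ v) = b (k_i w w⁻¹ v) = b (k_i v)` by (6) for `u = k_i w`, `v = w⁻¹ v`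
(`b (k_i w x_j) = f (k_i w x_j)`). -/

set_option autoImplicit false

noncomputable section

namespace Pool.Agent.OneJ74

theorem JExt_avoid {Γ : Type} [Finite Γ] (S : Set Γ) {ι : Type} [Fintype ι] (e : ι → Γ → Γ)
    (he : ∀ a, Function.Injective (e a))
    (h : Fintype.card ι * Nat.card {g // g ∉ S} < Nat.card Γ) : ∃ z, ∀ a, e a z ∈ S := by
  by_contra hcon
  push Not at hcon
  choose a ha using hcon
  have hinj : Function.Injective (fun z : Γ => ((a z, ⟨e (a z) z, ha z⟩) : ι × {g // g ∉ S})) := by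
    intro z z' hzz
    have h1 : a z = a z' := congrArg Prod.fst hzz
    have h2 : e (a z) z = e (a z') z' := congrArg Subtype.val (congrArg Prod.snd hzz)
    rw [h1] at h2
    exact he _ h2
  have h3 := Nat.card_le_card_of_injective _ hinj
  rw [Nat.card_prod, Nat.card_eq_fintype_card (α := ι)] at h3
  omega

theorem JExt_border {F : Type} [Field F] {ρ : ℕ} (A : Matrix (Fin ρ) (Fin ρ) F) (hA : A.det ≠ 0)
    (r c : Fin ρ → F) (d : F) (M : Matrix (Fin (ρ + 1)) (Fin (ρ + 1)) F) (hM : M.det = 0)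
    (h1 : ∀ i j, M (Fin.castSucc i) (Fin.castSucc j) = A i j)
    (h2 : ∀ j, M (Fin.last ρ) (Fin.castSucc j) = r j)
    (h3 : ∀ i, M (Fin.castSucc i) (Fin.last ρ) = c i)
    (h4 : M (Fin.last ρ) (Fin.last ρ) = d) : d = ∑ j, r j * ∑ i, A⁻¹ j i * c i := by
  obtain ⟨w, hw0, hw⟩ := Matrix.exists_mulVec_eq_zero_iff.mpr hM
  have hrow : ∀ i, (∑ j, A i j * w (Fin.castSucc j)) + c i * w (Fin.last ρ) = 0 := by
    intro i
    have h5 := congrFun hw (Fin.castSucc i)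
    simp only [Matrix.mulVec, dotProduct, Pi.zero_apply] at h5
    rw [Fin.sum_univ_castSucc] at h5
    simpa only [h1, h3] using h5
  have hlast : (∑ j, r j * w (Fin.castSucc j)) + d * w (Fin.last ρ) = 0 := by
    have h5 := congrFun hw (Fin.last ρ)
    simp only [Matrix.mulVec, dotProduct, Pi.zero_apply] at h5
    rw [Fin.sum_univ_castSucc] at h5
    simpa only [h2, h4] using h5
  have hAu : IsUnit A.det := isUnit_iff_ne_zero.mpr hA
  have hsol : ∀ j, w (Fin.castSucc j) = - (w (Fin.last ρ) * ∑ i, A⁻¹ j i * c i) := by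
    have h6 : A.mulVec (fun j => w (Fin.castSucc j)) = fun i => - (c i * w (Fin.last ρ)) := by
      funext i
      simp only [Matrix.mulVec, dotProduct]
      exact eq_neg_of_add_eq_zero_left (hrow i)
    have h7 : A⁻¹.mulVec (A.mulVec (fun j => w (Fin.castSucc j))) = fun j => w (Fin.castSucc j) := by
      rw [Matrix.mulVec_mulVec, Matrix.nonsing_inv_mul A hAu, Matrix.one_mulVec]
    intro j
    have h8 := congrFun h7 j
    rw [h6] at h8
    simp only [Matrix.mulVec, dotProduct] at h8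
    rw [← h8, Finset.mul_sum, ← Finset.sum_neg_distrib]
    refine Finset.sum_congr rfl fun i _ => ?_
    ring
  have ht : w (Fin.last ρ) ≠ 0 := by
    intro ht
    apply hw0
    funext i
    refine Fin.lastCases ?_ (fun j => ?_) i
    · exact ht
    · rw [hsol j, ht]
      simp
  have h9 : (∑ j, r j * w (Fin.castSucc j)) =
      - (w (Fin.last ρ) * ∑ j, r j * ∑ i, A⁻¹ j i * c i) := by
    rw [Finset.mul_sum, ← Finset.sum_neg_distrib]
    refine Finset.sum_congr rfl fun j _ => ?_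
    rw [hsol j]
    ring
  rw [h9] at hlast
  have h10 : w (Fin.last ρ) * d = w (Fin.last ρ) * ∑ j, r j * ∑ i, A⁻¹ j i * c i := by
    linear_combination hlast
  exact mul_left_cancel₀ ht h10

theorem exists_ext {Γ : Type} [Group Γ] [Finite Γ] {F : Type} [Field F] (S : Set Γ) (f : Γ → F)
    {ρ : ℕ} (k x : Fin ρ → Γ) (hkx : ∀ i j, k i * x j ∈ S)
    (hdet : (Matrix.of fun i j => f (k i * x j)).det ≠ 0)
    (hmin : ∀ k' x' : Fin (ρ + 1) → Γ, (∀ i j, k' i * x' j ∈ S) →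
      (Matrix.of fun i j => f (k' i * x' j)).det = 0)
    (hS : 2 * ρ * (ρ + 1) * Nat.card {g // g ∉ S} < Nat.card Γ) :
    ∃ b : Γ → F, (∀ g ∈ S, b g = f g) ∧ ∀ u v, b (u * v) =
      ∑ i, ∑ j, b (u * x j) * ((Matrix.of fun i j => f (k i * x j))⁻¹ j i) * b (k i * v) := by
  classical
  set G : Matrix (Fin ρ) (Fin ρ) F := (Matrix.of fun i j => f (k i * x j))⁻¹ with hG
  set m := Nat.card {g // g ∉ S} with hm
  obtain ⟨D, hD⟩ : ∃ D : Γ → Fin ρ → F, ∀ v j, D v j = ∑ i, G j i * f (k i * v) :=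
    ⟨_, fun _ _ => rfl⟩
  -- (1)
  have H1 : ∀ u v, (∀ j, u * x j ∈ S) → (∀ i, k i * v ∈ S) → u * v ∈ S →
      f (u * v) = ∑ j, f (u * x j) * D v j := by
    intro u v hu hv huv
    have h0 := hmin (Fin.snoc k u) (Fin.snoc x v) (by
      intro i j
      refine Fin.lastCases ?_ (fun i' => ?_) i
      · refine Fin.lastCases ?_ (fun j' => ?_) j
        · simpa only [Fin.snoc_last] using huv
        · simpa only [Fin.snoc_last, Fin.snoc_castSucc] using hu j'
      · refine Fin.lastCases ?_ (fun j' => ?_) j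
        · simpa only [Fin.snoc_last, Fin.snoc_castSucc] using hv i'
        · simpa only [Fin.snoc_castSucc] using hkx i' j')
    simp only [hD]
    exact JExt_border _ hdet (fun j => f (u * x j)) (fun i => f (k i * v)) (f (u * v)) _ h0
      (fun i j => by simp only [Matrix.of_apply, Fin.snoc_castSucc])
      (fun j => by simp only [Matrix.of_apply, Fin.snoc_castSucc, Fin.snoc_last])
      (fun i => by simp only [Matrix.of_apply, Fin.snoc_castSucc, Fin.snoc_last])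
      (by simp only [Matrix.of_apply, Fin.snoc_last])
  -- (2)
  have H2 : ∀ w v, (∀ i j, k i * (w * x j) ∈ S) → (∀ i, k i * v ∈ S) → (∀ i, k i * (w * v) ∈ S) →
      ∀ l, D (w * v) l = ∑ j, D (w * x j) l * D v j := by
    intro w v hw hv hwv l
    have h1 : ∀ i, f (k i * (w * v)) = ∑ j, f (k i * (w * x j)) * D v j := by
      intro i
      have h2 := H1 (k i * w) v (fun j => by rw [mul_assoc]; exact hw i j) hv
        (by rw [mul_assoc]; exact hwv i)
      simpa only [mul_assoc] using h2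
    have h3 : D (w * v) l = ∑ i, G l i * ∑ j, f (k i * (w * x j)) * D v j := by
      rw [hD (w * v) l]
      exact Finset.sum_congr rfl fun i _ => by rw [h1 i]
    rw [h3]
    simp only [Finset.mul_sum]
    rw [Finset.sum_comm]
    refine Finset.sum_congr rfl fun j _ => ?_
    have h4 : D (w * x j) l = ∑ i, G l i * f (k i * (w * x j)) := hD _ _
    rw [h4, Finset.sum_mul]
    refine Finset.sum_congr rfl fun i _ => ?_
    ring
  -- (3)
  have H3 : ∀ u w v, (∀ j, u * x j ∈ S) → (∀ j, u * (w * x j) ∈ S) → (∀ i j, k i * (w * x j) ∈ S) →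
      (∀ i, k i * v ∈ S) → (∀ i, k i * (w * v) ∈ S) →
      ∑ j, f ((u * w) * x j) * D v j = ∑ j, f (u * x j) * D (w * v) j := by
    intro u w v hu huw hw hv hwv
    have h1 : ∀ j, f ((u * w) * x j) = ∑ l, f (u * x l) * D (w * x j) l := by
      intro j
      have h2 := H1 u (w * x j) hu (fun i => hw i j) (huw j)
      rw [mul_assoc]
      exact h2
    have h3 : ∀ l, D (w * v) l = ∑ j, D (w * x j) l * D v j := H2 w v hw hv hwv
    simp only [h1, h3, Finset.mul_sum, Finset.sum_mul]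
    rw [Finset.sum_comm]
    refine Finset.sum_congr rfl fun l _ => Finset.sum_congr rfl fun j _ => ?_
    ring
  -- existence of decompositions
  have hcard4 : Fintype.card ((Fin ρ ⊕ Fin ρ) ⊕ ((Fin ρ × Fin ρ) ⊕ (Fin ρ × Fin ρ))) * m
      < Nat.card Γ := by
    simp only [Fintype.card_sum, Fintype.card_prod, Fintype.card_fin]
    refine lt_of_le_of_lt (le_of_eq ?_) hS
    ring
  have hE4 : ∀ g u u' : Γ, ∃ z : Γ, (∀ j, z * x j ∈ S) ∧ (∀ i, k i * (z⁻¹ * g) ∈ S) ∧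
      (∀ i j, k i * ((u⁻¹ * z) * x j) ∈ S) ∧ (∀ i j, k i * ((u'⁻¹ * z) * x j) ∈ S) := by
    intro g u u'
    obtain ⟨z, hz⟩ := JExt_avoid S
      (ι := (Fin ρ ⊕ Fin ρ) ⊕ ((Fin ρ × Fin ρ) ⊕ (Fin ρ × Fin ρ)))
      (Sum.elim (Sum.elim (fun j z => z * x j) (fun i z => k i * (z⁻¹ * g)))
        (Sum.elim (fun p z => k p.1 * ((u⁻¹ * z) * x p.2))
          (fun p z => k p.1 * ((u'⁻¹ * z) * x p.2))))
      (by
        rintro ((j | i) | (p | p)) z z' hzz
        · exact mul_right_cancel hzz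
        · exact inv_injective (mul_right_cancel (mul_left_cancel hzz))
        · exact mul_left_cancel (mul_right_cancel (mul_left_cancel hzz))
        · exact mul_left_cancel (mul_right_cancel (mul_left_cancel hzz))) hcard4
    exact ⟨z, fun j => hz (Sum.inl (Sum.inl j)), fun i => hz (Sum.inl (Sum.inr i)),
      fun i j => hz (Sum.inr (Sum.inl (i, j))), fun i j => hz (Sum.inr (Sum.inr (i, j)))⟩
  have hcard6 : Fintype.card ((Fin ρ ⊕ Fin ρ) ⊕ (Fin ρ × Fin ρ)) * m < Nat.card Γ := by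
    refine lt_of_le_of_lt (Nat.mul_le_mul_right _ ?_) hcard4
    simp only [Fintype.card_sum, Fintype.card_prod, Fintype.card_fin]
    omega
  have hE6 : ∀ u v : Γ, ∃ z : Γ, (∀ j, z * x j ∈ S) ∧ (∀ i, k i * ((z⁻¹ * u) * v) ∈ S) ∧
      (∀ i j, k i * ((z⁻¹ * u) * x j) ∈ S) := by
    intro u v
    obtain ⟨z, hz⟩ := JExt_avoid S
      (ι := (Fin ρ ⊕ Fin ρ) ⊕ (Fin ρ × Fin ρ))
      (Sum.elim (Sum.elim (fun j z => z * x j) (fun i z => k i * ((z⁻¹ * u) * v)))
        (fun p z => k p.1 * ((z⁻¹ * u) * x p.2)))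
      (by
        rintro ((j | i) | p) z z' hzz
        · exact mul_right_cancel hzz
        · exact inv_injective (mul_right_cancel (mul_right_cancel (mul_left_cancel hzz)))
        · exact inv_injective (mul_right_cancel (mul_right_cancel (mul_left_cancel hzz)))) hcard6
    exact ⟨z, fun j => hz (Sum.inl (Sum.inl j)), fun i => hz (Sum.inl (Sum.inr i)),
      fun i j => hz (Sum.inr (i, j))⟩
  have hcard7 : Fintype.card (Fin ρ ⊕ (Fin ρ × Fin ρ)) * m < Nat.card Γ := by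
    refine lt_of_le_of_lt (Nat.mul_le_mul_right _ ?_) hcard4
    simp only [Fintype.card_sum, Fintype.card_prod, Fintype.card_fin]
    omega
  have hE7 : ∀ v : Γ, ∃ w : Γ, (∀ i j, k i * (w * x j) ∈ S) ∧ (∀ i, k i * (w⁻¹ * v) ∈ S) := by
    intro v
    obtain ⟨z, hz⟩ := JExt_avoid S
      (ι := Fin ρ ⊕ (Fin ρ × Fin ρ))
      (Sum.elim (fun i z => k i * (z⁻¹ * v)) (fun p z => k p.1 * (z * x p.2)))
      (by
        rintro (i | p) z z' hzz
        · exact inv_injective (mul_right_cancel (mul_left_cancel hzz))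
        · exact mul_right_cancel (mul_left_cancel hzz)) hcard7
    exact ⟨z, fun i j => hz (Sum.inr (i, j)), fun i => hz (Sum.inl i)⟩
  -- (4)
  have H4 : ∀ g u u', (∀ j, u * x j ∈ S) → (∀ i, k i * (u⁻¹ * g) ∈ S) → (∀ j, u' * x j ∈ S) →
      (∀ i, k i * (u'⁻¹ * g) ∈ S) →
      ∑ j, f (u * x j) * D (u⁻¹ * g) j = ∑ j, f (u' * x j) * D (u'⁻¹ * g) j := by
    intro g u u' hu hug hu' hug'
    obtain ⟨z, hz1, hz2, hz3, hz4⟩ := hE4 g u u'
    have e : ∀ t : Γ, t * (t⁻¹ * z) = z := fun t => by group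
    have e' : ∀ t : Γ, (t⁻¹ * z) * (z⁻¹ * g) = t⁻¹ * g := fun t => by group
    have e'' : ∀ (t : Γ) (j), t * ((t⁻¹ * z) * x j) = z * x j := fun t j => by group
    have h1 := H3 u (u⁻¹ * z) (z⁻¹ * g) hu (fun j => by rw [e'']; exact hz1 j) hz3 hz2
      (fun i => by rw [e']; exact hug i)
    have h2 := H3 u' (u'⁻¹ * z) (z⁻¹ * g) hu' (fun j => by rw [e'']; exact hz1 j) hz4 hz2
      (fun i => by rw [e']; exact hug' i)
    simp only [e, e'] at h1 h2
    rw [← h1, ← h2]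
  have hE5 : ∀ g : Γ, ∃ z : Γ, (∀ j, z * x j ∈ S) ∧ (∀ i, k i * (z⁻¹ * g) ∈ S) := by
    intro g
    obtain ⟨z, hz1, hz2, _⟩ := hE4 g 1 1
    exact ⟨z, hz1, hz2⟩
  choose zz hzz1 hzz2 using hE5
  obtain ⟨b, hb⟩ : ∃ b : Γ → F, ∀ g, b g = ∑ j, f (zz g * x j) * D ((zz g)⁻¹ * g) j :=
    ⟨_, fun _ => rfl⟩
  have Hb : ∀ g u, (∀ j, u * x j ∈ S) → (∀ i, k i * (u⁻¹ * g) ∈ S) →
      b g = ∑ j, f (u * x j) * D (u⁻¹ * g) j := by
    intro g u hu hug
    rw [hb g]
    exact H4 g (zz g) u (hzz1 g) (hzz2 g) hu hug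
  -- (5)
  have H5 : ∀ g ∈ S, b g = f g := by
    intro g hg
    have h1 := H1 (zz g) ((zz g)⁻¹ * g) (hzz1 g) (hzz2 g) (by
      have : zz g * ((zz g)⁻¹ * g) = g := by group
      rw [this]; exact hg)
    have h2 : zz g * ((zz g)⁻¹ * g) = g := by group
    rw [h2] at h1
    rw [hb g]
    exact h1.symm
  -- (6)
  have H6 : ∀ u v, (∀ i, k i * v ∈ S) → b (u * v) = ∑ j, b (u * x j) * D v j := by
    intro u v hv
    obtain ⟨z, hz1, hz2, hz3⟩ := hE6 u v
    have h1 : b (u * v) = ∑ l, f (z * x l) * D ((z⁻¹ * u) * v) l := by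
      rw [Hb (u * v) z hz1 (fun i => by rw [← mul_assoc z⁻¹]; exact hz2 i), ← mul_assoc z⁻¹]
    have h2 : ∀ j, b (u * x j) = ∑ l, f (z * x l) * D ((z⁻¹ * u) * x j) l := by
      intro j
      rw [Hb (u * x j) z hz1 (fun i => by rw [← mul_assoc z⁻¹]; exact hz3 i j), ← mul_assoc z⁻¹]
    have h3 : ∀ l, D ((z⁻¹ * u) * v) l = ∑ j, D ((z⁻¹ * u) * x j) l * D v j :=
      H2 (z⁻¹ * u) v hz3 hv hz2
    rw [h1]
    simp only [h2, h3, Finset.mul_sum, Finset.sum_mul]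
    rw [Finset.sum_comm]
    refine Finset.sum_congr rfl fun j _ => Finset.sum_congr rfl fun l _ => ?_
    ring
  -- (7)
  refine ⟨b, H5, ?_⟩
  intro u v
  obtain ⟨w, hw1, hw2⟩ := hE7 v
  have e1 : ∀ t : Γ, t * v = (t * w) * (w⁻¹ * v) := fun t => by group
  have h1 : b (u * v) = ∑ l, b ((u * w) * x l) * D (w⁻¹ * v) l := by
    rw [e1 u]
    exact H6 (u * w) (w⁻¹ * v) hw2
  have h2 : ∀ l, b ((u * w) * x l) = ∑ j, b (u * x j) * D (w * x l) j := by
    intro l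
    rw [mul_assoc]
    exact H6 u (w * x l) (fun i => hw1 i l)
  have h3 : ∀ i, b (k i * v) = ∑ l, f (k i * (w * x l)) * D (w⁻¹ * v) l := by
    intro i
    rw [e1 (k i), H6 (k i * w) (w⁻¹ * v) hw2]
    refine Finset.sum_congr rfl fun l _ => ?_
    rw [mul_assoc (k i) w, H5 _ (hw1 i l)]
  have h4 : ∀ l j, D (w * x l) j = ∑ i, G j i * f (k i * (w * x l)) := fun l j => hD _ _
  rw [h1]
  have h5 : ∑ l, b ((u * w) * x l) * D (w⁻¹ * v) l =
      ∑ l, ∑ i, ∑ j, b (u * x j) * G j i * (f (k i * (w * x l)) * D (w⁻¹ * v) l) := by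
    refine Finset.sum_congr rfl fun l _ => ?_
    rw [h2 l, Finset.sum_mul, Finset.sum_comm]
    refine Finset.sum_congr rfl fun j _ => ?_
    rw [h4 l j, Finset.mul_sum, Finset.sum_mul]
    refine Finset.sum_congr rfl fun i _ => ?_
    ring
  have h6 : ∑ i, ∑ j, b (u * x j) * G j i * b (k i * v) =
      ∑ i, ∑ l, ∑ j, b (u * x j) * G j i * (f (k i * (w * x l)) * D (w⁻¹ * v) l) := by
    refine Finset.sum_congr rfl fun i _ => ?_
    rw [Finset.sum_comm]
    refine Finset.sum_congr rfl fun j _ => ?_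
    rw [h3 i, Finset.mul_sum]
  rw [h5, h6]
  exact Finset.sum_comm

end Pool.Agent.OneJ74
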