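import Mathlib

/-! # Hadamard's inequality; the trace of a matrix of small rank

`hadamard`: let `r i` be the norm of the row `i`.  If some `r i = 0` then `det A = 0`.  Otherwise divide the
rows by `r i`: the matrix `B = A' * A'ᴴ` is positive semidefinite with ones on the diagonal,
`det B = ‖det A'‖ ^ 2` is the product of its (nonnegative) eigenvalues, their sum is the trace `m`, so by
the inequality between the geometric and the arithmetic mean `det B ≤ 1`.

`norm_trace_sq_le`: let `M = P * R` and `W` the range of `M` (dimension at most `r`).  Take an orthonormal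
basis `e` of `ℂ ^ m` whose first elements span `W` (or the orthogonal projection `E` to `W`: `M = E M`,
`tr M = tr (E M)`, by Cauchy and Schwarz `|tr M| ^ 2 ≤ ‖E‖² ‖M‖²` for the Frobenius norm, and
`‖E‖² = tr E = dim W ≤ r`).  Another way: let `c` be an orthonormal basis of `W` (`r' ≤ r` vectors, columns
of a matrix `V` with `Vᴴ V = 1`, `V Vᴴ M = M`); `tr M = tr (V Vᴴ M) = tr (Vᴴ M V)`, and so on. -/

set_option autoImplicit false

noncomputable section

namespace Pool.Agent.OneJ74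

open scoped ComplexOrder in
theorem hadamard {m : ℕ} (A : Matrix (Fin m) (Fin m) ℂ) :
    ‖A.det‖ ^ 2 ≤ ∏ i, ∑ j, ‖A i j‖ ^ 2 := by
  classical
  by_cases h0 : ∃ i, ∑ j, ‖A i j‖ ^ 2 = 0
  · obtain ⟨i, hi⟩ := h0
    have hz : ∀ j, A i j = 0 := by
      intro j
      have := (Finset.sum_eq_zero_iff_of_nonneg (fun j _ => by positivity)).1 hi j
        (Finset.mem_univ j)
      simpa using this
    rw [Matrix.det_eq_zero_of_row_eq_zero i hz]
    simp only [norm_zero, ne_eq, OfNat.ofNat_ne_zero, not_false_eq_true, zero_pow]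
    exact Finset.prod_nonneg (fun i _ => Finset.sum_nonneg (fun j _ => by positivity))
  push Not at h0
  have hpos : ∀ i, 0 < ∑ j, ‖A i j‖ ^ 2 := fun i =>
    lt_of_le_of_ne (Finset.sum_nonneg (fun j _ => by positivity)) (Ne.symm (h0 i))
  set s : Fin m → ℝ := fun i => Real.sqrt (∑ j, ‖A i j‖ ^ 2) with hsdef
  have hs : ∀ i, 0 < s i := fun i => Real.sqrt_pos.2 (hpos i)
  have hs2 : ∀ i, s i ^ 2 = ∑ j, ‖A i j‖ ^ 2 := fun i => Real.sq_sqrt (hpos i).le
  have hsc : ∀ i, (s i : ℂ) ≠ 0 := fun i => by exact_mod_cast (hs i).ne'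
  set C : Matrix (Fin m) (Fin m) ℂ := Matrix.of (fun i j => A i j / (s i : ℂ)) with hC
  have hAC : A = Matrix.diagonal (fun i => (s i : ℂ)) * C := by
    ext i j
    rw [Matrix.diagonal_mul, hC, Matrix.of_apply, mul_div_cancel₀ _ (hsc i)]
  have hdet : A.det = (∏ i, (s i : ℂ)) * C.det := by
    conv_lhs => rw [hAC]
    rw [Matrix.det_mul, Matrix.det_diagonal]
  have hB : (C * C.conjTranspose).PosSemidef := Matrix.posSemidef_self_mul_conjTranspose C
  have htr : (C * C.conjTranspose).trace = (m : ℂ) := by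
    rw [Matrix.trace]
    have : ∀ i, (C * C.conjTranspose).diag i = 1 := by
      intro i
      rw [Matrix.diag_apply, Matrix.mul_apply]
      have h1 : ∀ j, C i j * C.conjTranspose j i = ((‖A i j‖ ^ 2 / s i ^ 2 : ℝ) : ℂ) := by
        intro j
        rw [Matrix.conjTranspose_apply, hC, Matrix.of_apply]
        have := Complex.mul_conj (A i j / (s i : ℂ))
        rw [Complex.star_def, this, Complex.normSq_eq_norm_sq, norm_div, div_pow]
        simp
      rw [Finset.sum_congr rfl (fun j _ => h1 j), ← Complex.ofReal_sum, ← Finset.sum_div,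
        ← hs2 i, div_self (by have := hs i; positivity)]
      simp
    rw [Finset.sum_congr rfl (fun i _ => this i)]
    simp
  have hdetB : (C * C.conjTranspose).det = ((‖C.det‖ ^ 2 : ℝ) : ℂ) := by
    rw [Matrix.det_mul, Matrix.det_conjTranspose, Complex.star_def, Complex.mul_conj,
      Complex.normSq_eq_norm_sq]
  have hsum : ∑ i, hB.1.eigenvalues i = m := by
    have := hB.1.trace_eq_sum_eigenvalues
    rw [htr] at this
    have h2 : ((∑ i, hB.1.eigenvalues i : ℝ) : ℂ) = ((m : ℝ) : ℂ) := by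
      rw [Complex.ofReal_sum]
      simpa using this.symm
    exact_mod_cast h2
  have hprod : ∏ i, hB.1.eigenvalues i = ‖C.det‖ ^ 2 := by
    have := hB.1.det_eq_prod_eigenvalues
    rw [hdetB] at this
    have h2 : ((∏ i, hB.1.eigenvalues i : ℝ) : ℂ) = ((‖C.det‖ ^ 2 : ℝ) : ℂ) := by
      rw [Complex.ofReal_prod]
      simpa using this.symm
    exact_mod_cast h2
  have hle : ‖C.det‖ ^ 2 ≤ 1 := by
    rw [← hprod]
    calc ∏ i, hB.1.eigenvalues i ≤ ∏ i, Real.exp (hB.1.eigenvalues i - 1) := by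
          refine Finset.prod_le_prod (fun i _ => hB.eigenvalues_nonneg i) (fun i _ => ?_)
          have := Real.add_one_le_exp (hB.1.eigenvalues i - 1)
          linarith
      _ = Real.exp (∑ i, (hB.1.eigenvalues i - 1)) := (Real.exp_sum _ _).symm
      _ = 1 := by
          rw [Finset.sum_sub_distrib, hsum]
          simp
  rw [hdet, norm_mul, mul_pow]
  have hp : ‖∏ i, (s i : ℂ)‖ ^ 2 = ∏ i, ∑ j, ‖A i j‖ ^ 2 := by
    rw [norm_prod, ← Finset.prod_pow]
    refine Finset.prod_congr rfl (fun i _ => ?_)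
    rw [Complex.norm_real, Real.norm_eq_abs, sq_abs, hs2]
  rw [hp]
  exact mul_le_of_le_one_right
    (Finset.prod_nonneg (fun i _ => Finset.sum_nonneg (fun j _ => by positivity))) hle

theorem norm_trace_sq_le {κ : Type} [Fintype κ] {r : ℕ} (P : Matrix κ (Fin r) ℂ)
    (R : Matrix (Fin r) κ ℂ) :
    ‖(P * R).trace‖ ^ 2 ≤ r * ∑ i, ∑ j, ‖(P * R) i j‖ ^ 2 := by
  classical
  set M := P * R with hM
  set v : Fin r → EuclideanSpace ℂ κ := fun k => WithLp.toLp 2 (fun i => P i k) with hv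
  set c : κ → EuclideanSpace ℂ κ := fun j => WithLp.toLp 2 (fun i => M i j) with hc
  set W : Submodule ℂ (EuclideanSpace ℂ κ) := Submodule.span ℂ (Set.range v) with hW
  have hcW : ∀ j, c j ∈ W := by
    intro j
    have : c j = ∑ k, R k j • v k := by
      ext i
      simp only [hc, hv, hM, Matrix.mul_apply, WithLp.ofLp_sum, WithLp.ofLp_smul,
        Finset.sum_apply, Pi.smul_apply, smul_eq_mul]
      exact Finset.sum_congr rfl (fun k _ => mul_comm _ _)
    rw [this]
    exact Submodule.sum_mem _ (fun k _ => Submodule.smul_mem _ _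
      (Submodule.subset_span ⟨k, rfl⟩))
  have hfin : Module.finrank ℂ W ≤ r := by
    have := finrank_range_le_card (R := ℂ) v
    simpa [Set.finrank, hW] using this
  let b := stdOrthonormalBasis ℂ W
  have hexp : ∀ j, M j j = ∑ k, inner ℂ (b k) (⟨c j, hcW j⟩ : W) * ((b k : W) : EuclideanSpace ℂ κ).ofLp j := by
    intro j
    have h1 := b.sum_repr' (⟨c j, hcW j⟩ : W)
    have h2 := congrArg (fun x : W => (x : EuclideanSpace ℂ κ).ofLp j) h1
    simp only at h2
    rw [show (((⟨c j, hcW j⟩ : W) : EuclideanSpace ℂ κ)).ofLp j = M j j from rfl] at h2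
    rw [← h2]
    simp only [Submodule.coe_sum, Submodule.coe_smul, WithLp.ofLp_sum, WithLp.ofLp_smul,
      Finset.sum_apply, Pi.smul_apply, smul_eq_mul]
  have htr : M.trace = ∑ p : κ × Fin (Module.finrank ℂ W),
      inner ℂ (b p.2) (⟨c p.1, hcW p.1⟩ : W) * ((b p.2 : W) : EuclideanSpace ℂ κ).ofLp p.1 := by
    rw [Matrix.trace, Fintype.sum_prod_type]
    exact Finset.sum_congr rfl (fun j _ => by rw [Matrix.diag_apply, hexp j])
  have hrow : ∀ j, ∑ k, ‖inner ℂ (b k) (⟨c j, hcW j⟩ : W)‖ ^ 2 = ∑ i, ‖M i j‖ ^ 2 := by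
    intro j
    have h1 := b.sum_sq_norm_inner_right (⟨c j, hcW j⟩ : W)
    have h2 : ‖(⟨c j, hcW j⟩ : W)‖ ^ 2 = ‖c j‖ ^ 2 := by rw [Submodule.coe_norm]
    have h3 : ‖c j‖ ^ 2 = ∑ i, ‖M i j‖ ^ 2 := EuclideanSpace.norm_sq_eq (c j)
    exact (h1.trans h2).trans h3
  have hn1 : ∑ p : κ × Fin (Module.finrank ℂ W),
      ‖inner ℂ (b p.2) (⟨c p.1, hcW p.1⟩ : W)‖ ^ 2 = ∑ i, ∑ j, ‖M i j‖ ^ 2 := by
    rw [Fintype.sum_prod_type, Finset.sum_comm (s := Finset.univ) (t := Finset.univ)
      (f := fun i j => ‖M i j‖ ^ 2)]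
    exact Finset.sum_congr rfl (fun j _ => hrow j)
  have hn2 : ∑ p : κ × Fin (Module.finrank ℂ W),
      ‖((b p.2 : W) : EuclideanSpace ℂ κ).ofLp p.1‖ ^ 2 = Module.finrank ℂ W := by
    rw [Fintype.sum_prod_type, Finset.sum_comm]
    have : ∀ k, ∑ j, ‖((b k : W) : EuclideanSpace ℂ κ).ofLp j‖ ^ 2 = 1 := by
      intro k
      rw [← EuclideanSpace.norm_sq_eq, ← Submodule.coe_norm, b.norm_eq_one]
      norm_num
    rw [Finset.sum_congr rfl (fun k _ => this k)]
    simp
  have hCS : ‖M.trace‖ ^ 2 ≤ (∑ i, ∑ j, ‖M i j‖ ^ 2) * Module.finrank ℂ W := by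
    rw [htr, ← hn1, ← hn2]
    refine le_trans (pow_le_pow_left₀ (norm_nonneg _) (norm_sum_le _ _) 2) ?_
    simp only [norm_mul]
    exact Finset.sum_mul_sq_le_sq_mul_sq _ _ _
  refine hCS.trans ?_
  rw [mul_comm]
  have h0 : 0 ≤ ∑ i, ∑ j, ‖M i j‖ ^ 2 :=
    Finset.sum_nonneg (fun i _ => Finset.sum_nonneg (fun j _ => by positivity))
  exact mul_le_mul_of_nonneg_right (by exact_mod_cast hfin) h0

end Pool.Agent.OneJ74
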