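import Pool.Agent.W_7742j_h74.JDef

/-! # Inequalities between the constants

With `m = n ^ 2`: `(m + 1) h₁ = (m + 1) (2 m² + 2 m + 1) ≤ 10 n ^ 6`, `YY ^ 2 = (64 n ^ 6) ^ (m + 1)`,
`m h₁ = 2 n ^ 6 + 2 n ^ 4 + n ^ 2 ≤ 5 n ^ 6`.

`ine_2`: `(5 n ^ 6) ^ m (2 h₂ + 2 n²) < (64 n ^ 6) ^ (m + 1)`, i.e. `2 h₂ + 2 n² < (64 / 5) ^ m * 64 n ^ 6`;
`h₂ = 2 (n + 1)! n ^ (2 (n + 1)) + 1`, `n ≤ 2 ^ (n - 1)` so `n ^ (2 (n + 1)) ≤ 4 ^ (n² - 1)`, and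
`(n + 1)! ≤ (n + 1) ^ n ≤ (2 ^ n) ^ n = 2 ^ m`, so `(n + 1)! n ^ (2 (n + 1)) ≤ 8 ^ m / 4`. -/

set_option autoImplicit false

noncomputable section

namespace Pool.Agent.OneJ74

variable {n : ℕ}

theorem YY_eq (n : ℕ) : YY n = ZZ n * n ^ (2 * n ^ 2) := by
  unfold YY ZZ
  rw [mul_pow, mul_assoc, ← pow_add]
  congr 2
  ring

private theorem YY_sq (n : ℕ) : YY n ^ 2 = (64 * n ^ 6) ^ (n ^ 2 + 1) := by
  unfold YY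
  rw [← pow_mul, show 3 * (n ^ 2 + 1) * 2 = 6 * (n ^ 2 + 1) by ring, pow_mul]
  congr 1
  rw [mul_pow]
  norm_num

private theorem mh_le (hn : 0 < n) : n ^ 2 * h₁ n ≤ 5 * n ^ 6 := by
  unfold h₁
  have h1 : n ^ 2 ≤ n ^ 6 := Nat.pow_le_pow_right hn (by norm_num)
  have h2 : n ^ 4 ≤ n ^ 6 := Nat.pow_le_pow_right hn (by norm_num)
  calc n ^ 2 * (2 * n ^ 2 * (n ^ 2 + 1) + 1) = 2 * n ^ 6 + 2 * n ^ 4 + n ^ 2 := by ring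
    _ ≤ 5 * n ^ 6 := by omega

private theorem mh_lt (hn : 0 < n) : (n ^ 2 + 1) * h₁ n < 64 * n ^ 6 := by
  have h0 := mh_le hn
  have h1 : n ^ 2 ≤ n ^ 6 := Nat.pow_le_pow_right hn (by norm_num)
  have h2 : n ^ 4 ≤ n ^ 6 := Nat.pow_le_pow_right hn (by norm_num)
  have h3 : 1 ≤ n ^ 6 := Nat.one_le_pow _ _ hn
  have h4 : h₁ n = 2 * n ^ 4 + 2 * n ^ 2 + 1 := by unfold h₁; ring
  have h5 : (n ^ 2 + 1) * h₁ n = n ^ 2 * h₁ n + h₁ n := by ring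
  rw [h5]
  omega

theorem ine_1 (hn : 0 < n) : ((n ^ 2 + 1) * h₁ n) ^ (n ^ 2 + 1) < YY n ^ 2 := by
  rw [YY_sq]
  exact Nat.pow_lt_pow_left (mh_lt hn) (by omega)

private theorem fac_le (n : ℕ) : (n + 1).factorial ≤ 2 ^ (n ^ 2) := by
  have h1 : (n + 1).factorial ≤ (n + 1) ^ n := by
    induction n with
    | zero => simp
    | succ k ih =>
      rw [Nat.factorial_succ, pow_succ, mul_comm]
      refine Nat.mul_le_mul ?_ le_rfl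
      exact ih.trans (Nat.pow_le_pow_left (by omega) k)
  have h2 : n + 1 ≤ 2 ^ n := Nat.lt_two_pow_self
  calc (n + 1).factorial ≤ (n + 1) ^ n := h1
    _ ≤ (2 ^ n) ^ n := Nat.pow_le_pow_left h2 n
    _ = 2 ^ (n ^ 2) := by rw [← pow_mul, sq]

private theorem four_mul_le (hn : 0 < n) :
    4 * ((n + 1).factorial * n ^ (2 * (n + 1))) ≤ 8 ^ (n ^ 2) := by
  obtain ⟨k, rfl⟩ : ∃ k, n = k + 1 := ⟨n - 1, by omega⟩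
  have h1 : k + 1 ≤ 2 ^ k := Nat.lt_two_pow_self
  have h2 : (k + 1) ^ (2 * (k + 1 + 1)) ≤ (2 ^ k) ^ (2 * (k + 1 + 1)) := Nat.pow_le_pow_left h1 _
  have h3 : 4 * (2 ^ k) ^ (2 * (k + 1 + 1)) = 4 ^ ((k + 1) ^ 2) := by
    rw [← pow_mul, show (4 : ℕ) = 2 ^ 2 by norm_num, ← pow_mul, ← pow_add]
    congr 1
    ring
  calc 4 * ((k + 1 + 1).factorial * (k + 1) ^ (2 * (k + 1 + 1)))
      ≤ 4 * (2 ^ ((k + 1) ^ 2) * (2 ^ k) ^ (2 * (k + 1 + 1))) :=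
        Nat.mul_le_mul le_rfl (Nat.mul_le_mul (fac_le (k + 1)) h2)
    _ = 2 ^ ((k + 1) ^ 2) * (4 * (2 ^ k) ^ (2 * (k + 1 + 1))) := by ring
    _ = 2 ^ ((k + 1) ^ 2) * 4 ^ ((k + 1) ^ 2) := by rw [h3]
    _ = 8 ^ ((k + 1) ^ 2) := by rw [← mul_pow]; norm_num

theorem ine_2 (hn : 0 < n) : (n ^ 2 * h₁ n) ^ (n ^ 2) * (2 * h₂ n + 2 * n ^ 2) < YY n ^ 2 := by
  rw [YY_sq]
  have h0 : 1 ≤ n ^ 6 := Nat.one_le_pow _ _ hn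
  have h1 : n ^ 2 ≤ n ^ 6 := Nat.pow_le_pow_right hn (by norm_num)
  have h2 := four_mul_le hn
  have h3 : 1 ≤ 8 ^ (n ^ 2) := Nat.one_le_pow _ _ (by norm_num)
  have h4 : 2 * h₂ n + 2 * n ^ 2 < 8 ^ (n ^ 2) * (64 * n ^ 6) := by
    have h5 : 2 * h₂ n = 4 * ((n + 1).factorial * n ^ (2 * (n + 1))) + 2 := by
      unfold h₂
      ring
    have h6 : 8 ^ (n ^ 2) * 1 ≤ 8 ^ (n ^ 2) * n ^ 6 := Nat.mul_le_mul le_rfl h0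
    have h7 : 1 * n ^ 6 ≤ 8 ^ (n ^ 2) * n ^ 6 := Nat.mul_le_mul h3 le_rfl
    have h8 : 8 ^ (n ^ 2) * (64 * n ^ 6) = 64 * (8 ^ (n ^ 2) * n ^ 6) := by ring
    rw [h5, h8]
    omega
  calc (n ^ 2 * h₁ n) ^ (n ^ 2) * (2 * h₂ n + 2 * n ^ 2)
      ≤ (5 * n ^ 6) ^ (n ^ 2) * (2 * h₂ n + 2 * n ^ 2) :=
        Nat.mul_le_mul (Nat.pow_le_pow_left (mh_le hn) _) le_rfl
    _ < (5 * n ^ 6) ^ (n ^ 2) * (8 ^ (n ^ 2) * (64 * n ^ 6)) :=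
        Nat.mul_lt_mul_of_pos_left h4 (Nat.pos_of_ne_zero (pow_ne_zero _ (by omega)))
    _ = (40 * n ^ 6) ^ (n ^ 2) * (64 * n ^ 6) := by
        rw [← mul_assoc, ← mul_pow]
        congr 2
        ring
    _ ≤ (64 * n ^ 6) ^ (n ^ 2) * (64 * n ^ 6) :=
        Nat.mul_le_mul (Nat.pow_le_pow_left (by omega) _) le_rfl
    _ = (64 * n ^ 6) ^ (n ^ 2 + 1) := (pow_succ _ _).symm

theorem ine_3 (hn : 0 < n) : (2 * n + 1) ^ (n + 1) < YY n := by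
  unfold YY
  have h1 : 2 * n + 1 ≤ (2 * n) ^ 2 := by nlinarith
  calc (2 * n + 1) ^ (n + 1) ≤ ((2 * n) ^ 2) ^ (n + 1) := Nat.pow_le_pow_left h1 _
    _ = (2 * n) ^ (2 * (n + 1)) := by rw [← pow_mul]
    _ < (2 * n) ^ (3 * (n ^ 2 + 1)) := Nat.pow_lt_pow_right (by omega) (by nlinarith)

theorem ine_4 (hn : 0 < n) : (n ^ 2 * h₁ n) ^ (n ^ 2) < YY n ^ 2 := by
  refine lt_of_le_of_lt ?_ (ine_2 hn)
  refine Nat.le_mul_of_pos_right _ ?_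
  unfold h₂
  omega

theorem ine_5 (hn : 0 < n) : 4 * n ^ 2 < YY n ^ 2 := by
  unfold YY
  have h1 : 4 * n ^ 2 = (2 * n) ^ 2 := by ring
  rw [h1]
  refine Nat.pow_lt_pow_left ?_ (by norm_num)
  calc 2 * n = (2 * n) ^ 1 := (pow_one _).symm
    _ < (2 * n) ^ (3 * (n ^ 2 + 1)) := Nat.pow_lt_pow_right (by omega) (by omega)

theorem ine_6 (hn : 0 < n) : 3 * n ≤ ZZ n ∧ 2 * n < ZZ n ∧ 2 * n.factorial < ZZ n := by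
  have h1 : 64 ≤ 2 ^ (3 * (n ^ 2 + 1)) := by
    have h2 : 1 ≤ n ^ 2 := Nat.one_le_pow _ _ hn
    calc 64 = 2 ^ 6 := by norm_num
      _ ≤ 2 ^ (3 * (n ^ 2 + 1)) := Nat.pow_le_pow_right (by norm_num) (by omega)
  have h3 : n ≤ n ^ (n ^ 2 + 3) := by
    calc n = n ^ 1 := (pow_one _).symm
      _ ≤ n ^ (n ^ 2 + 3) := Nat.pow_le_pow_right hn (by omega)
  have h4 : n.factorial ≤ n ^ (n ^ 2 + 3) :=
    (Nat.factorial_le_pow n).trans (Nat.pow_le_pow_right hn (by nlinarith))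
  have h5 : 64 * n ^ (n ^ 2 + 3) ≤ ZZ n := by
    unfold ZZ
    exact Nat.mul_le_mul h1 le_rfl
  have h6 : 0 < n.factorial := Nat.factorial_pos n
  refine ⟨by omega, by omega, by omega⟩

end Pool.Agent.OneJ74
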