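import Pool.Agent.W_7742j_h74.JDef
import Pool.Agent.W_7742j_h74.JHad

/-! # Norms in number fields

`prod_le_mean`: inequality between the geometric and the arithmetic mean
(`Real.inner_le_nnorm_mul_nnorm`... better `Real.geom_mean_le_arith_mean` or
`Real.inner...`; the number of embeddings is `Module.finrank ℚ K`: `NumberField.Embeddings.card`).

`eq_zero_of_prod`: `OneI74.absNorm_le_prod`.

`prod_det_le`: `σ (det B) = det (B.map σ)`, `hadamard`, exchange the products,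
`∏_i ∏_σ ∑_j ‖σ (B i j)‖ ^ 2 ≤ ∏_i ((∑_σ ∑_j ‖σ (B i j)‖ ^ 2) / d) ^ d ≤ ∏_i (m h) ^ d`.

`Q_sub_le`: `‖a - b‖ ^ 2 ≤ 2 ‖a‖ ^ 2 + 2 ‖b‖ ^ 2`.  `prod_sq_le_Q`: `prod_le_mean` for `‖σ w‖ ^ 2`.

`eq_of_Q`: `x - y ∈ 𝔟` and `OneI74.sum_sq_ge` with `c = YY n` (or `eq_zero_of_prod` and `prod_sq_le_Q`). -/

set_option autoImplicit false

noncomputable section

namespace Pool.Agent.OneJ74

open NumberField Pool.Agent.OneI74

variable {K : Type} [Field K] [NumberField K]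

theorem Q_nonneg (w : K) : 0 ≤ Q w := Finset.sum_nonneg fun _ _ => sq_nonneg _

theorem Q_natCast (m : ℕ) : Q (m : K) = Module.finrank ℚ K * (m : ℝ) ^ 2 := by
  unfold Q
  have h1 : ∀ σ : K →+* ℂ, ‖σ (m : K)‖ ^ 2 = (m : ℝ) ^ 2 := by
    intro σ
    rw [map_natCast, Complex.norm_natCast]
  rw [Finset.sum_congr rfl fun σ _ => h1 σ, Finset.sum_const, Finset.card_univ,
    NumberField.Embeddings.card K ℂ, nsmul_eq_mul]

theorem Q_sub_le (a b : K) : Q (a - b) ≤ 2 * Q a + 2 * Q b := by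
  unfold Q
  rw [Finset.mul_sum, Finset.mul_sum, ← Finset.sum_add_distrib]
  refine Finset.sum_le_sum fun σ _ => ?_
  rw [map_sub]
  have h1 := norm_sub_le (σ a) (σ b)
  have h2 := norm_nonneg (σ a - σ b)
  nlinarith [sq_nonneg (‖σ a‖ - ‖σ b‖), norm_nonneg (σ a), norm_nonneg (σ b)]

theorem prod_le_mean (v : (K →+* ℂ) → ℝ) (hv : ∀ σ, 0 ≤ v σ) :
    ∏ σ, v σ ≤ ((∑ σ, v σ) / Module.finrank ℚ K) ^ Module.finrank ℚ K := by
  classical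
  have hcard : Fintype.card (K →+* ℂ) = Module.finrank ℚ K := NumberField.Embeddings.card K ℂ
  set D := Module.finrank ℚ K with hD
  have hDpos : 0 < D := Module.finrank_pos
  have hDr : (0 : ℝ) < D := by exact_mod_cast hDpos
  have hP : 0 ≤ ∏ σ, v σ := Finset.prod_nonneg fun σ _ => hv σ
  have ham := Real.geom_mean_le_arith_mean_weighted Finset.univ (fun _ : K →+* ℂ => (1 : ℝ) / D)
    v (fun _ _ => by positivity)
    (by rw [Finset.sum_const, Finset.card_univ, hcard, nsmul_eq_mul]; field_simp)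
    (fun σ _ => hv σ)
  rw [Real.finsetProd_rpow _ _ (fun σ _ => hv σ), ← Finset.mul_sum] at ham
  have h3 : ((∏ σ, v σ) ^ ((1 : ℝ) / D)) ^ D = ∏ σ, v σ := by
    rw [← Real.rpow_natCast, ← Real.rpow_mul hP, one_div_mul_cancel hDr.ne', Real.rpow_one]
  calc ∏ σ, v σ = ((∏ σ, v σ) ^ ((1 : ℝ) / D)) ^ D := h3.symm
    _ ≤ (1 / (D : ℝ) * ∑ σ, v σ) ^ D := pow_le_pow_left₀ (Real.rpow_nonneg hP _) ham D
    _ = ((∑ σ, v σ) / D) ^ D := by rw [one_div, inv_mul_eq_div]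

theorem prod_sq_le_Q (w : K) :
    ∏ σ : K →+* ℂ, ‖σ w‖ ^ 2 ≤ (Q w / Module.finrank ℚ K) ^ Module.finrank ℚ K := by
  exact prod_le_mean (fun σ : K →+* ℂ => ‖σ w‖ ^ 2) fun _ => sq_nonneg _

theorem eq_zero_of_prod (𝔟 : Ideal (𝓞 K)) {x : 𝓞 K} (hx : x ∈ 𝔟)
    (h : ∏ σ : K →+* ℂ, ‖σ (x : K)‖ ^ 2 < (Ideal.absNorm 𝔟 : ℝ) ^ 2) : x = 0 := by
  by_contra h0
  have h1 := absNorm_le_prod 𝔟 hx h0
  rw [Finset.prod_pow] at h
  have h2 : (0 : ℝ) ≤ (Ideal.absNorm 𝔟 : ℝ) := Nat.cast_nonneg _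
  have h3 := pow_le_pow_left₀ h2 h1 2
  linarith

theorem prod_det_le {m : ℕ} (B : Matrix (Fin m) (Fin m) K) {h : ℝ}
    (hB : ∀ i j, Q (B i j) ≤ Module.finrank ℚ K * h) :
    ∏ σ : K →+* ℂ, ‖σ B.det‖ ^ 2 ≤ ((m : ℝ) * h) ^ (m * Module.finrank ℚ K) := by
  classical
  set D := Module.finrank ℚ K with hD
  have hDpos : 0 < D := Module.finrank_pos
  have hDr : (0 : ℝ) < D := by exact_mod_cast hDpos
  have h1 : ∀ σ : K →+* ℂ, ‖σ B.det‖ ^ 2 ≤ ∏ i, ∑ j, ‖σ (B i j)‖ ^ 2 := by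
    intro σ
    have h := hadamard (σ.mapMatrix B)
    rw [← RingHom.map_det] at h
    simpa using h
  have hnn : ∀ i (σ : K →+* ℂ), 0 ≤ ∑ j, ‖σ (B i j)‖ ^ 2 := fun i σ =>
    Finset.sum_nonneg fun _ _ => sq_nonneg _
  have h2 : ∀ i, ∏ σ : K →+* ℂ, ∑ j, ‖σ (B i j)‖ ^ 2 ≤ ((m : ℝ) * h) ^ D := by
    intro i
    have h3 := prod_le_mean (fun σ : K →+* ℂ => ∑ j, ‖σ (B i j)‖ ^ 2) (hnn i)
    refine h3.trans ?_
    apply pow_le_pow_left₀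
    · exact div_nonneg (Finset.sum_nonneg fun σ _ => hnn i σ) hDr.le
    · rw [div_le_iff₀ hDr, Finset.sum_comm]
      calc ∑ j, ∑ σ : K →+* ℂ, ‖σ (B i j)‖ ^ 2 ≤ ∑ _j : Fin m, (D : ℝ) * h :=
            Finset.sum_le_sum fun j _ => hB i j
        _ = (m : ℝ) * h * D := by
            rw [Finset.sum_const, Finset.card_univ, Fintype.card_fin, nsmul_eq_mul]
            ring
  calc ∏ σ : K →+* ℂ, ‖σ B.det‖ ^ 2 ≤ ∏ σ : K →+* ℂ, ∏ i, ∑ j, ‖σ (B i j)‖ ^ 2 :=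
        Finset.prod_le_prod (fun _ _ => sq_nonneg _) fun σ _ => h1 σ
    _ = ∏ i, ∏ σ : K →+* ℂ, ∑ j, ‖σ (B i j)‖ ^ 2 := Finset.prod_comm
    _ ≤ ∏ _i : Fin m, ((m : ℝ) * h) ^ D :=
        Finset.prod_le_prod (fun i _ => Finset.prod_nonneg fun σ _ => hnn i σ) fun i _ => h2 i
    _ = ((m : ℝ) * h) ^ (m * D) := by
        rw [Finset.prod_const, Finset.card_univ, Fintype.card_fin, ← pow_mul, mul_comm D m]

theorem eq_of_Q (𝔟 : Ideal (𝓞 K)) {Y : ℕ} (hY : Y ^ Module.finrank ℚ K ≤ Ideal.absNorm 𝔟)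
    {x y : 𝓞 K} (hxy : x - y ∈ 𝔟)
    (h : 2 * Q (x : K) + 2 * Q (y : K) < Module.finrank ℚ K * (Y : ℝ) ^ 2) : x = y := by
  by_contra hne
  have h0 : x - y ≠ 0 := sub_ne_zero.2 hne
  have hc : (Y : ℝ) ^ Module.finrank ℚ K ≤ (Ideal.absNorm 𝔟 : ℝ) := by exact_mod_cast hY
  have h1 := sum_sq_ge 𝔟 hxy h0 (Nat.cast_nonneg Y) hc
  have h2 := Q_sub_le (x : K) (y : K)
  have h3 : (((x - y : 𝓞 K) : K)) = (x : K) - (y : K) := by simp
  rw [h3] at h1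
  have h4 : ∑ σ : K →+* ℂ, ‖σ ((x : K) - (y : K))‖ ^ 2 = Q ((x : K) - (y : K)) := rfl
  rw [h4] at h1
  linarith

end Pool.Agent.OneJ74
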