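import Pool.Agent.W_7742j_h74.JMai
import Pool.Agent.W_7742z_h74.Fin

/-! # The theorem for a system of Satake classes -/

set_option autoImplicit false

noncomputable section

open Filter Topology NumberField

namespace Pool.Agent.OneJ74

open Pool.Agent Pool.Agent.GalSide Pool.Agent.Cheb Pool.Agent.H74V Pool.Agent.OneI74

theorem final3 {K : Type} [Field K] [NumberField K] {n : ℕ} (hn : 2 ≤ n)
    (π : SatakeSystem K n) (h : ∀ σ : K →+* ℂ, π.IsCuspidal σ)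
    (Fr : Nat.Primes → AbsGal ℚ) (hFr : OneP74.IsFrobeniusFamily Fr)
    {A : Type} [CommRing A] (ι : 𝓞 K →+* A)
    (hN : YY n ^ Module.finrank ℚ K ≤ Ideal.absNorm (RingHom.ker ι))
    (r : AbsGal ℚ →* Matrix (Fin n) (Fin n) A)
    (hr : IsOpen ({g | r g = 1} : Set (AbsGal ℚ)))
    (hc : Congruent π Fr ι fun g => (r g).trace) :
    ∃ (𝔟 : Ideal (𝓞 K)) (U : Subgroup (AbsGal ℚ)) (_ : U.Normal) (β : AbsGal ℚ ⧸ U → 𝓞 K),
      RingHom.ker ι ≤ 𝔟 ∧
      Ideal.absNorm (RingHom.ker ι) ≤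
        (n ^ (2 * n ^ 2)) ^ Module.finrank ℚ K * Ideal.absNorm 𝔟 ∧
      ZZ n ^ Module.finrank ℚ K ≤ Ideal.absNorm 𝔟 ∧
      IsOpen (U : Set (AbsGal ℚ)) ∧ (∀ g, r g = 1 → g ∈ U) ∧
      (∀ g, ∃ c, ι c = (r g).trace) ∧
      (∀ g c, ι c = (r g).trace → c - β (QuotientGroup.mk g) ∈ 𝔟) ∧
      HasDensity {p : Nat.Primes | (β (QuotientGroup.mk (Fr p)) : K) ≠ (π.A p).trace} 0 ∧
      (∀ s : K →+* ℂ, ∃ R : AbsGal ℚ ⧸ U →* Matrix (Fin n) (Fin n) ℂ,
        (∀ x, (R x).trace = s (β x : K)) ∧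
        ∀ W : Submodule ℂ (Fin n → ℂ), (∀ g, ∀ w ∈ W, (R g).mulVec w ∈ W) → W = ⊥ ∨ W = ⊤) ∧
      ¬ ∀ g h : Fin (n ^ 2) → AbsGal ℚ,
        (Matrix.of fun i j => (r (g i * h j)).trace).det = 0 := by
  obtain ⟨b, hb, hb0⟩ := OneP74.exists_trace (by omega) π
  choose 𝔓 h𝔓 hp hF using hFr
  have hlev := OneP74.finite_level π.level_pos
  obtain ⟨𝔟, U, hU, β, k1, kb, k2, k3, k4, k5, k6, k7, k8, k9⟩ :=
    main3 (frobeniusData 𝔓 h𝔓 hp Fr hF) b
    (fun σ ε hε => OneP74.logBound_trace hn π σ (h σ) b hb hb0 ε hε) ι (by omega) hN r hr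
    (OneP74.density_union hc hlev (by
      intro p hp'
      by_cases hpl : (p : ℕ) ∣ π.level
      · exact Or.inr hpl
      · refine Or.inl fun hx => hp' ?_
        obtain ⟨x, hx1, hx2⟩ := hx
        have : x = b p := by
          apply RingOfIntegers.ext
          rw [hx1, hb p hpl]
        rw [← this]
        exact hx2))
  refine ⟨𝔟, U, hU, β, k1, kb, k2, k3, k4, k5, k6, OneP74.density_union k7 hlev ?_, k8, k9⟩
  intro p hp'
  by_cases hpl : (p : ℕ) ∣ π.level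
  · exact Or.inr hpl
  · refine Or.inl fun hx => hp' ?_
    rw [← hb p hpl, hx]
    rfl

end Pool.Agent.OneJ74
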