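import Pool.Agent.W_7742j_h74.JOne
import Pool.Agent.W_7742k_h74.FFam

/-! # Sums of two representations; families -/

set_option autoImplicit false

noncomputable section

open Filter Topology NumberField

namespace Pool.Agent.OneJ74

open Pool.Agent Pool.Agent.GalSide Pool.Agent.Cheb Pool.Agent.H74V Pool.Agent.OneI74
open Pool.Agent.DZ74 (same_charpoly)

theorem final_pair {K : Type} [Field K] [NumberField K] {n : ℕ} (hn : 2 ≤ n)
    (π : SatakeSystem K n) (h : ∀ σ : K →+* ℂ, π.IsCuspidal σ)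
    (Fr : Nat.Primes → AbsGal ℚ) (hFr : OneP74.IsFrobeniusFamily Fr)
    {A : Type} [CommRing A] (ι : 𝓞 K →+* A)
    (hN : YY n ^ Module.finrank ℚ K ≤ Ideal.absNorm (RingHom.ker ι))
    {a b : ℕ} (ha : 0 < a) (hb : 0 < b) (hab : a + b = n)
    (r₁ : AbsGal ℚ →* GL (Fin a) A) (r₂ : AbsGal ℚ →* GL (Fin b) A)
    (h₁ : IsOpen (r₁.ker : Set (AbsGal ℚ))) (h₂ : IsOpen (r₂.ker : Set (AbsGal ℚ)))
    (hc : Congruent π Fr ι fun g => (r₁ g).val.trace + (r₂ g).val.trace) : False := by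
  obtain ⟨t, ht, ht1⟩ := exists_block hab ((Units.coeHom _).comp r₁) ((Units.coeHom _).comp r₂)
  have ho : IsOpen ({g | t g = 1} : Set (AbsGal ℚ)) := by
    let V : Subgroup (AbsGal ℚ) := t.toHomUnits.ker
    have hV : (V : Set (AbsGal ℚ)) = {g | t g = 1} := by
      ext g
      constructor
      · intro hg
        exact congrArg Units.val (MonoidHom.mem_ker.1 hg)
      · intro hg
        exact MonoidHom.mem_ker.2 (Units.ext hg)
    rw [← hV]
    refine V.isOpen_of_mem_nhds (g := 1) ?_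
    refine Filter.mem_of_superset (((isOpen_ker r₁ h₁).inter (isOpen_ker r₂ h₂)).mem_nhds
      ⟨map_one _, map_one _⟩) ?_
    rintro g ⟨hg1, hg2⟩
    have : g ∈ {g | t g = 1} := ht1 g hg1 hg2
    rw [← hV] at this
    exact this
  have hc' : Congruent π Fr ι fun g => (t g).trace := by
    have e : (fun g => (t g).trace) = fun g => (r₁ g).val.trace + (r₂ g).val.trace := by
      funext g
      exact ht g
    rw [e]
    exact hc
  obtain ⟨𝔟, U, hU, β, -, -, -, -, -, -, -, -, -, k⟩ := final3 hn π h Fr hFr ι hN t ho hc'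
  refine k fun x y => ?_
  have e : (Matrix.of fun i j => (t (x i * y j)).trace) =
      Matrix.of fun i j => ((r₁ (x i)).val * (r₁ (y j)).val).trace +
        ((r₂ (x i)).val * (r₂ (y j)).val).trace := by
    ext i j
    show (t (x i * y j)).trace = _
    rw [ht, map_mul, map_mul]
    rfl
  rw [e]
  refine det_gram_pair ?_ (fun i => (r₁ (x i)).val) (fun j => (r₁ (y j)).val)
    (fun i => (r₂ (x i)).val) (fun j => (r₂ (y j)).val)
  subst hab
  nlinarith [Nat.mul_pos ha hb]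

theorem final_families {K : Type} [Field K] [NumberField K] {n : ℕ} (hn : 2 ≤ n)
    (π : SatakeSystem K n) (h : ∀ σ : K →+* ℂ, π.IsCuspidal σ)
    (Fr : Nat.Primes → AbsGal ℚ) (hFr : Pool.Agent.OneP74.IsFrobeniusFamily Fr)
    {J : Type} (A : J → Type) [∀ j, CommRing (A j)] (ι : ∀ j, 𝓞 K →+* A j)
    (hN : ∀ B : ℕ, ∃ j, B ≤ Ideal.absNorm (RingHom.ker (ι j)))
    (r : ∀ j, AbsGal ℚ →* GL (Fin n) (A j)) (hr : ∀ j, IsOpen ((r j).ker : Set (AbsGal ℚ)))
    (hc : ∀ j, Congruent π Fr (ι j) fun g => (r j g).val.trace) (s : K →+* ℂ) :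
    ∃ R : AbsGal ℚ →* GL (Fin n) ℂ, IsArtin R ∧
      (∀ j, YY n ^ Module.finrank ℚ K ≤ Ideal.absNorm (RingHom.ker (ι j)) →
        (r j).ker ≤ R.ker) ∧
      ∀ (g : AbsGal ℚ) (P : Polynomial (𝓞 K)), P.Monic → P.natDegree = n →
        (∀ B : ℕ, ∃ j, B ≤ Ideal.absNorm (RingHom.ker (ι j)) ∧
          (r j g).val.charpoly = P.map (ι j)) →
        (R g).val.charpoly = (P.map (algebraMap (𝓞 K) K)).map s := by
  classical
  obtain ⟨j₀, hj₀⟩ := hN (YY n ^ Module.finrank ℚ K)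
  choose R hA hk hd hTr hDet h3 hCh hAll using
    fun j : {j : J // YY n ^ Module.finrank ℚ K ≤ Ideal.absNorm (RingHom.ker (ι j))} =>
      final_one_three hn π h Fr hFr (ι j.1) j.2 (r j.1) (hr j.1) (hc j.1) s
  have key : ∀ (j : {j : J // YY n ^ Module.finrank ℚ K ≤ Ideal.absNorm (RingHom.ker (ι j))})
      (g : AbsGal ℚ), (R ⟨j₀, hj₀⟩ g).val.charpoly = (R j g).val.charpoly ∧
        (R j g = 1 → R ⟨j₀, hj₀⟩ g = 1) := by
    intro j g
    refine same_charpoly hFr (hA _).1 (hA j).1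
      (Pool.Agent.OneP74.density_union' (hd ⟨j₀, hj₀⟩) (hd j) (subset_refl _)) ?_ g
    intro p hp
    rw [Set.mem_union, not_or] at hp
    exact (not_not.1 hp.1).trans (not_not.1 hp.2).symm
  refine ⟨R ⟨j₀, hj₀⟩, hA _, fun j hj g hg => ?_, fun g P hP hdeg hB => ?_⟩
  · exact MonoidHom.mem_ker.2 ((key ⟨j, hj⟩ g).2 (MonoidHom.mem_ker.1 (hk ⟨j, hj⟩ hg)))
  · obtain ⟨ρ, hρ1, hρ⟩ : ∃ ρ : ℝ, 1 ≤ ρ ∧ ∀ σ : K →+* ℂ,
        ∀ α ∈ ((P.map (algebraMap (𝓞 K) K)).map σ).roots, ‖α‖ ≤ ρ := by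
      have hfin : (⋃ σ : K →+* ℂ,
          {α : ℂ | α ∈ ((P.map (algebraMap (𝓞 K) K)).map σ).roots}).Finite :=
        Set.finite_iUnion fun σ => Multiset.finite_toSet _
      obtain ⟨C, hC⟩ := (hfin.image fun α : ℂ => ‖α‖).bddAbove
      refine ⟨max 1 C, le_max_left _ _, fun σ α hα => le_trans ?_ (le_max_right _ _)⟩
      exact hC (Set.mem_image_of_mem _ (Set.mem_iUnion.2 ⟨σ, hα⟩))
    obtain ⟨B, hB'⟩ := exists_nat_gt
      (((n : ℝ) ^ (2 * n ^ 2 + 1) * (ρ ^ n + 1)) ^ Module.finrank ℚ K)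
    obtain ⟨j, hj1, hj2⟩ := hB (max B (YY n ^ Module.finrank ℚ K))
    have hj3 := (le_max_right _ _).trans hj1
    rw [(key ⟨j, hj3⟩ g).1]
    refine hCh ⟨j, hj3⟩ g P ρ hP hdeg hρ1 hρ (hB'.trans_le ?_) hj2
    exact_mod_cast (le_max_left _ _).trans hj1

end Pool.Agent.OneJ74
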